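import Mathlib
import Pool.Agent.Helper91_TW.Growth

set_option autoImplicit false

/-!
# Diagonal Ramsey numbers of colourings of bounded clique-width or twin-width

A colouring of the edges of the complete graph on a finite set `V` is a graph `G` (red) together
with its complement (blue); `NoMono G k`: there is no monochromatic `K_k`.  Three parameters of the
colouring are considered, each at most the number of vertices (definitions, with `ramsey` and
`maxOrder`, in `Pool/Agent/Helper91_TW/Defs.lean` and `Growth.lean`):

* `CliqueWidthLe G w`: the clique-width is at most `w`;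
* `TwinWidthLe G w`: the twin-width is at most `w`;
* `SymDiffLe G w`: every induced subgraph with two or more vertices contains two vertices which are
  distinguished by at most `w` of its vertices (this holds with `w = t` for twin-width `t`, with
  `w = 2 c` for clique-width `c`).

Let `n` be the number of vertices of a colouring without monochromatic `K_k`.

1. `n ≤ (w + 1) exp (22 √(k log k))` if the symmetric difference is at most `w`, hence for
   twin-width at most `w`, and with `2 w + 1` in place of `w + 1` for clique-width at most `w`.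
2. For clique-width or twin-width at most `w`, `3 ≤ w ≤ 2 ^ k`, moreover
   `log n ≤ 18 log w log k / log log w`.
3. This is the right order of magnitude: for `w ≤ 2 ^ (k / 2)` there are such colourings with
   `log n ≥ (1 / 200) log w log k / log log w`, both widths being at most `w`.
4. The factor `exp (22 √(k log k))` in 1 cannot be replaced by anything below `exp (√k / 16)`: for
   `exp √k ≤ w ≤ exp (k / 32)` there are such colourings, both widths being at most `w`, with
   `n ≥ w exp (k / (16 log w))`.
5. Growth rate: for each of the three parameters the largest `n` satisfies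
   `log n / k = min (log w / k, log R(k,k) / k) + o(1)`, uniformly in `w ≥ 1`. So the growth rate of
   the Ramsey numbers of the colourings of width at most `e ^ (τ k)` is the minimum of `τ` and of the
   growth rate of the diagonal Ramsey numbers.

In particular the widths of a colouring without monochromatic `K_k` on `n = e ^ (θ k)` vertices are
at least `n ^ (1 - o(1))`.

Proof of 1. Merge vertices which are nearly twins among the remaining ones, set clusters aside as
soon as they have `s = k ^ a` vertices, and count the pairs of vertices whose adjacency is not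
that of the representatives of their clusters: most clusters of size `s` are homogeneous with
respect to most vertices if the set has more than `64 (w + 1) s ^ 3` vertices.  Such a cluster
contains a red and a blue `K_a`; iterate `2 k / a` times, with `a` about `√(k / log k)`.
-/

namespace Pool.Agent.Results.MP_28724c_co.CliqueTwinWidth

open Pool.Agent.Helper91_TW

theorem growth (ε : ℝ) (hε : 0 < ε) : ∃ K : ℕ, ∀ k w : ℕ, K ≤ k → 1 ≤ w →
    |Real.log (maxOrder k (fun _ _ _ G => CliqueWidthLe G w)) / k -
      min (Real.log w / k) (Real.log (ramsey k) / k)| ≤ ε ∧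
    |Real.log (maxOrder k (fun _ _ _ G => TwinWidthLe G w)) / k -
      min (Real.log w / k) (Real.log (ramsey k) / k)| ≤ ε ∧
    |Real.log (maxOrder k (fun _ _ _ G => SymDiffLe G w)) / k -
      min (Real.log w / k) (Real.log (ramsey k) / k)| ≤ ε := by
  obtain ⟨K, hK⟩ := log_small ε hε
  refine ⟨K, fun k w hk hw => ?_⟩
  obtain ⟨hk3, hk'⟩ := hK k hk
  have hlog : ∀ (w a : ℕ), 1 ≤ w → 1 ≤ a → a ≤ 3 → Real.log ((a * w : ℕ) : ℝ) ≤
      Real.log w + 2 := by
    intro w a hw ha ha3
    have haR : (1 : ℝ) ≤ a := by exact_mod_cast ha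
    have ha3R : (a : ℝ) ≤ 3 := by exact_mod_cast ha3
    have hwR : (1 : ℝ) ≤ w := by exact_mod_cast hw
    push_cast
    rw [Real.log_mul (by linarith) (by linarith)]
    have := Real.log_le_sub_one_of_pos (by linarith : (0 : ℝ) < a)
    linarith
  have low : ∀ (m w k : ℕ) (H : SimpleGraph (Fin m)), 1 ≤ m → m ≤ w → 2 ≤ k → NoMono H k →
      ∃ (V : Type) (_ : Fintype V) (_ : DecidableEq V) (G : SimpleGraph V),
        Fintype.card V = m ∧ NoMono G k ∧ CliqueWidthLe G w ∧ TwinWidthLe G w := by
    intro m w k H hm hmw hk hH
    obtain ⟨V, i1, i2, _, G, h1, h2, h3, h4⟩ := power_exists (m := m) (h := k - 1) (w := w)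
      (k := k) (r := 1) hm hmw H (by rw [Nat.sub_add_cancel (by omega)]; exact hH)
      (by rw [pow_one]; omega)
    exact ⟨V, i1, i2, G, by rw [h1, pow_one], h2, h3, h4⟩
  refine ⟨?_, ?_, ?_⟩
  · refine growth_aux (fun w _ _ _ G => CliqueWidthLe G w) ?_ ?_ hk3 hk' hw
    · intro V _ _ _ G k w hk hw hG hP
      have h1 := upper_symDiff hk hG (symDiff_of_cliqueWidth hP)
      have h2 := hlog w 3 hw (by norm_num) le_rfl
      have h3 : Real.log (((2 * w : ℕ) : ℝ) + 1) ≤ Real.log ((3 * w : ℕ) : ℝ) := by
        apply Real.log_le_log (by positivity)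
        exact_mod_cast (by omega : 2 * w + 1 ≤ 3 * w)
      linarith
    · intro m w k H hm hmw hk hH
      obtain ⟨V, i1, i2, G, h1, h2, h3, _⟩ := low m w k H hm hmw hk hH
      exact ⟨V, i1, i2, G, h1, h2, h3⟩
  · refine growth_aux (fun w _ _ _ G => TwinWidthLe G w) ?_ ?_ hk3 hk' hw
    · intro V _ _ _ G k w hk hw hG hP
      have h1 := upper_symDiff hk hG (symDiff_of_twinWidth hP)
      have h2 := hlog w 2 hw (by norm_num) (by norm_num)
      have h3 : Real.log ((w : ℝ) + 1) ≤ Real.log ((2 * w : ℕ) : ℝ) := by
        apply Real.log_le_log (by positivity)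
        exact_mod_cast (by omega : w + 1 ≤ 2 * w)
      linarith
    · intro m w k H hm hmw hk hH
      obtain ⟨V, i1, i2, G, h1, h2, _, h4⟩ := low m w k H hm hmw hk hH
      exact ⟨V, i1, i2, G, h1, h2, h4⟩
  · refine growth_aux (fun w _ _ _ G => SymDiffLe G w) ?_ ?_ hk3 hk' hw
    · intro V _ _ _ G k w hk hw hG hP
      have h1 := upper_symDiff hk hG hP
      have h2 := hlog w 2 hw (by norm_num) (by norm_num)
      have h3 : Real.log ((w : ℝ) + 1) ≤ Real.log ((2 * w : ℕ) : ℝ) := by
        apply Real.log_le_log (by positivity)
        exact_mod_cast (by omega : w + 1 ≤ 2 * w)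
      linarith
    · intro m w k H hm hmw hk hH
      obtain ⟨V, i1, i2, G, h1, h2, _, h4⟩ := low m w k H hm hmw hk hH
      exact ⟨V, i1, i2, G, h1, h2, symDiff_of_twinWidth h4⟩

theorem second_upper {V : Type} [Fintype V] [DecidableEq V] {G : SimpleGraph V} {k w : ℕ}
    (hk : 2 ≤ k) (hw : 3 ≤ w) (hwk : w ≤ 2 ^ k) (hG : NoMono G k)
    (h : CliqueWidthLe G w ∨ TwinWidthLe G w) :
    Real.log (Fintype.card V) ≤ 18 * (Real.log w * Real.log k / Real.log (Real.log w)) := by
  have hkR : (2 : ℝ) ≤ k := by exact_mod_cast hk
  have hwR : (3 : ℝ) ≤ w := by exact_mod_cast hw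
  have h2a := Real.log_two_gt_d9
  have h2b := Real.log_two_lt_d9
  have hlk : 0 < Real.log (k : ℝ) := Real.log_pos (by linarith)
  have hlw : (1.097 : ℝ) < Real.log w :=
    log3_lower.trans_le (Real.log_le_log (by norm_num) hwR)
  have hllw : 0 < Real.log (Real.log w) := Real.log_pos (by linarith)
  have hrhs : 0 ≤ 18 * (Real.log w * Real.log k / Real.log (Real.log w)) := by positivity
  rcases isEmpty_or_nonempty V with hV | hV
  · rw [Fintype.card_eq_zero]
    simpa using hrhs
  have key : ∀ W : ℕ, 12 ≤ W → w ≤ W → W ≤ 16 * w → LinPairs G W →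
      Real.log (Fintype.card V) ≤ 18 * (Real.log w * Real.log k / Real.log (Real.log w)) := by
    intro W hW hwW hW16 hlin
    have h1 := upper_linPairs hW (by omega) hlin hG
    have hW0 : (0 : ℝ) < W := by exact_mod_cast (by omega : 0 < W)
    have h3 : Real.log W ≤ 3.53 * Real.log w := by
      have h4 : (W : ℝ) ≤ 16 * w := by exact_mod_cast hW16
      have h5 := Real.log_le_log hW0 h4
      rw [Real.log_mul (by norm_num) (by linarith), show (16 : ℝ) = 2 ^ 4 by norm_num,
        Real.log_pow] at h5
      push_cast at h5
      nlinarith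
    have h4 : Real.log (Real.log w) ≤ Real.log (Real.log W) := by
      apply Real.log_le_log (by linarith)
      exact Real.log_le_log (by linarith) (by exact_mod_cast hwW)
    have h5 : Real.log W / Real.log (Real.log W) ≤ 3.53 * Real.log w / Real.log (Real.log w) := by
      apply div_le_div₀ (by positivity) h3 hllw h4
    have h6 : Real.log (Real.log w) ≤ Real.log k := by
      apply Real.log_le_log (by linarith)
      have h7 : (w : ℝ) ≤ 2 ^ k := by exact_mod_cast hwk
      have h8 := Real.log_le_log (by linarith) h7
      rw [Real.log_pow] at h8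
      nlinarith
    have h7 : Real.log w ≤ Real.log w * Real.log k / Real.log (Real.log w) := by
      rw [le_div_iff₀ hllw]
      exact mul_le_mul_of_nonneg_left h6 (by linarith)
    have h8 : 4 * (Real.log W / Real.log (Real.log W)) * Real.log k ≤
        4 * 3.53 * (Real.log w * Real.log k / Real.log (Real.log w)) := by
      calc 4 * (Real.log W / Real.log (Real.log W)) * Real.log k
          ≤ 4 * (3.53 * Real.log w / Real.log (Real.log w)) * Real.log k := by
            apply mul_le_mul_of_nonneg_right _ hlk.le
            exact mul_le_mul_of_nonneg_left h5 (by norm_num)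
        _ = 4 * 3.53 * (Real.log w * Real.log k / Real.log (Real.log w)) := by ring
    have h9 : 0 ≤ Real.log w * Real.log k / Real.log (Real.log w) := by positivity
    linarith
  rcases h with h | h
  · exact key (12 * w) (by omega) (by omega) (by omega) (linPairs_of_cliqueWidth h (by omega))
  · exact key (12 * (w + 1)) (by omega) (by omega) (by omega) (linPairs_of_twinWidth h)

/-- **Main result.** -/
theorem result :
    -- (1) upper bound, asymptotically sharp for large `w`
    (∀ (V : Type) [Fintype V] [DecidableEq V] (G : SimpleGraph V) (k w : ℕ), 2 ≤ k → NoMono G k →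
      ((SymDiffLe G w ∨ TwinWidthLe G w) →
        (Fintype.card V : ℝ) ≤ (w + 1) * Real.exp (22 * √(k * Real.log k))) ∧
      (CliqueWidthLe G w →
        (Fintype.card V : ℝ) ≤ (2 * w + 1) * Real.exp (22 * √(k * Real.log k)))) ∧
    -- (2) upper bound for all `w`
    (∀ (V : Type) [Fintype V] [DecidableEq V] (G : SimpleGraph V) (k w : ℕ), 2 ≤ k → 3 ≤ w →
      w ≤ 2 ^ k → NoMono G k → (CliqueWidthLe G w ∨ TwinWidthLe G w) →
        Real.log (Fintype.card V) ≤
          18 * (Real.log w * Real.log k / Real.log (Real.log w))) ∧
    -- (3) lower bound of the same order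
    (∀ k w : ℕ, 3 ≤ k → 3 ≤ w → w ^ 2 ≤ 2 ^ k →
      ∃ (V : Type) (_ : Fintype V) (_ : DecidableEq V) (G : SimpleGraph V),
        NoMono G k ∧ CliqueWidthLe G w ∧ TwinWidthLe G w ∧
          1 / 200 * (Real.log w * Real.log k / Real.log (Real.log w)) ≤
            Real.log (Fintype.card V)) ∧
    -- (4) the error factor in (1) is needed
    (∀ k w : ℕ, 1 ≤ k → 1 ≤ w → √(k : ℝ) ≤ Real.log w → 32 * Real.log w ≤ k →
      ∃ (V : Type) (_ : Fintype V) (_ : DecidableEq V) (G : SimpleGraph V),
        NoMono G k ∧ CliqueWidthLe G w ∧ TwinWidthLe G w ∧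
          w * Real.exp (k / (16 * Real.log w)) ≤ Fintype.card V) ∧
    -- (5) the growth rates
    (∀ ε : ℝ, 0 < ε → ∃ K : ℕ, ∀ k w : ℕ, K ≤ k → 1 ≤ w →
      |Real.log (maxOrder k (fun _ _ _ G => CliqueWidthLe G w)) / k -
        min (Real.log w / k) (Real.log (ramsey k) / k)| ≤ ε ∧
      |Real.log (maxOrder k (fun _ _ _ G => TwinWidthLe G w)) / k -
        min (Real.log w / k) (Real.log (ramsey k) / k)| ≤ ε ∧
      |Real.log (maxOrder k (fun _ _ _ G => SymDiffLe G w)) / k -
        min (Real.log w / k) (Real.log (ramsey k) / k)| ≤ ε) := by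
  refine ⟨?_, ?_, ?_, ?_, growth⟩
  · intro V _ _ G k w hk hG
    have main : ∀ t : ℕ, SymDiffLe G t →
        (Fintype.card V : ℝ) ≤ (t + 1) * Real.exp (22 * √(k * Real.log k)) := by
      intro t ht
      rcases isEmpty_or_nonempty V with hV | hV
      · rw [Fintype.card_eq_zero, Nat.cast_zero]
        positivity
      · have h1 := upper_symDiff hk hG ht
        have h0 : (0 : ℝ) < Fintype.card V := by exact_mod_cast Fintype.card_pos
        rw [← Real.exp_log h0]
        calc Real.exp (Real.log (Fintype.card V))
            ≤ Real.exp (Real.log (t + 1) + 22 * √(k * Real.log k)) := Real.exp_le_exp.2 h1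
          _ = (t + 1) * Real.exp (22 * √(k * Real.log k)) := by
              rw [Real.exp_add, Real.exp_log (by positivity)]
    refine ⟨?_, ?_⟩
    · rintro (h | h)
      · exact main w h
      · exact main w (symDiff_of_twinWidth h)
    · intro h
      have := main (2 * w) (symDiff_of_cliqueWidth h)
      push_cast at this
      exact this
  · intro V _ _ G k w hk hw hwk hG h
    exact second_upper hk hw hwk hG h
  · intro k w hk hw hwk
    obtain ⟨V, i1, i2, _, G, h⟩ := lower_main hk hw hwk
    exact ⟨V, i1, i2, G, h⟩
  · intro k w hk hw h1 h2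
    obtain ⟨V, i1, i2, _, G, h⟩ := sharp hk hw h1 h2
    exact ⟨V, i1, i2, G, h⟩

end Pool.Agent.Results.MP_28724c_co.CliqueTwinWidth
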