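import Pool.Agent.H370RR.Upper
import Pool.Agent.H370RR.LowerGen
import Pool.Agent.H818R2.Ram.Basic

set_option autoImplicit false

/-!
# MP_28724c_co: the growth rate of the Ramsey numbers of colourings of small rank over a finite field

A colouring of the edges of the complete graph on `Fin n` is a graph `G` (red) with its complement
(blue).  It is given by a symmetric matrix `M` over a field `F` if the colour of a pair `x ≠ y`
depends only on the entry `M x y` (the diagonal of `M` is arbitrary), and it has `F`-rank at most `r`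
if it is given by a matrix of rank at most `r`.  Every colouring of `K_n` has `F`-rank at most `n`.
-/

open Finset

namespace Pool.Agent.Results.MP_28724c_co.FiniteFieldRank

/-- The colouring with colour classes `G` and `Gᶜ` has no monochromatic `K_k`. -/
def NoMono {n : ℕ} (G : SimpleGraph (Fin n)) (k : ℕ) : Prop :=
  G.CliqueFree k ∧ Gᶜ.CliqueFree k

/-- `M` is symmetric and the colour of a pair `x ≠ y` depends only on the entry `M x y`. -/
def GivenBy {F : Type} {n : ℕ} (G : SimpleGraph (Fin n)) (M : Matrix (Fin n) (Fin n) F) : Prop :=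
  M.IsSymm ∧ ∀ x y x' y' : Fin n, x ≠ y → x' ≠ y' → M x y = M x' y' → (G.Adj x y ↔ G.Adj x' y')

/-- The colouring is given by a symmetric matrix over `F` of rank at most `r`. -/
def RankLE (F : Type) [Field F] {n : ℕ} (G : SimpleGraph (Fin n)) (r : ℕ) : Prop :=
  ∃ M : Matrix (Fin n) (Fin n) F, GivenBy G M ∧ M.rank ≤ r

/-- The diagonal Ramsey number `R(k,k)`. -/
noncomputable def ramsey (k : ℕ) : ℕ := sInf {n : ℕ | ∀ G : SimpleGraph (Fin n), ¬ NoMono G k}

/-- The Ramsey number of the colourings of `F`-rank at most `r`: the least `n` such that all these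
colourings of the edges of `K_n` contain a monochromatic `K_k`. -/
noncomputable def rankRamsey (F : Type) [Field F] (r k : ℕ) : ℕ :=
  sInf {n : ℕ | ∀ G : SimpleGraph (Fin n), RankLE F G r → ¬ NoMono G k}

open Classical in
/-- The rank of the (ordinary) adjacency matrix of `G` over the field with two elements. -/
noncomputable def twoRank {n : ℕ} (G : SimpleGraph (Fin n)) : ℕ := (G.adjMatrix (ZMod 2)).rank

section upper

variable {F : Type} [Field F] [Fintype F]

theorem upper {n k r : ℕ} {G : SimpleGraph (Fin n)} (hr : RankLE F G r) (hG : NoMono G k) :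
    n ≤ (k - 1) * Fintype.card F ^ ((r + 4) / 2) := by
  classical
  obtain ⟨M, ⟨hM, hcol⟩, hrk⟩ := hr
  obtain ⟨c, hc⟩ := Pool.Agent.H370RR.partition M hM
  have hNle : Fintype.card F ^ ((M.rank + 4) / 2) ≤ Fintype.card F ^ ((r + 4) / 2) :=
    Nat.pow_le_pow_right Fintype.card_pos (by omega)
  by_contra hcon
  push Not at hcon
  have h1 : (univ : Finset (Fin (Fintype.card F ^ ((M.rank + 4) / 2)))).card * (k - 1) <
      (univ : Finset (Fin n)).card := by
    rw [card_univ, card_univ, Fintype.card_fin, Fintype.card_fin, mul_comm]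
    exact lt_of_le_of_lt (Nat.mul_le_mul_left _ hNle) hcon
  obtain ⟨y, _, hy⟩ := Finset.exists_lt_card_fiber_of_mul_lt_card_of_maps_to
    (f := c) (fun x _ => mem_univ _) h1
  obtain ⟨s, hs, hsk⟩ := Finset.exists_subset_card_eq (show k ≤ _ by omega : k ≤
    (univ.filter (fun x => c x = y)).card)
  have hsc : ∀ x ∈ s, c x = y := fun x hx => (mem_filter.1 (hs hx)).2
  by_cases hall : ∀ x ∈ s, ∀ z ∈ s, x ≠ z → G.Adj x z
  · exact hG.1 s ⟨fun x hx z hz hxz => hall x hx z hz hxz, hsk⟩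
  · push Not at hall
    obtain ⟨x, hx, z, hz, hxz, hnadj⟩ := hall
    refine hG.2 s ⟨fun x' hx' z' hz' hxz' => ?_, hsk⟩
    rw [SimpleGraph.compl_adj]
    refine ⟨hxz', fun hadj => hnadj ?_⟩
    rw [hcol x z x' z' hxz hxz' (hc x z x' z' (by rw [hsc x hx, hsc z hz])
      (by rw [hsc x' hx', hsc z' hz']) (by rw [hsc x hx, hsc x' hx']))]
    exact hadj

end upper

section restr

theorem noMono_comap {n n' k : ℕ} (h : n ≤ n') {G : SimpleGraph (Fin n')} (hG : NoMono G k) :
    NoMono (G.comap (Fin.castLE h)) k := by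
  constructor
  · exact hG.1.comap ⟨(SimpleGraph.Embedding.comap (Fin.castLEEmb h) G).toCopy⟩
  · have h1 : (G.comap (Fin.castLE h))ᶜ = Gᶜ.comap (Fin.castLE h) := by
      ext x y
      simp only [SimpleGraph.compl_adj, SimpleGraph.comap_adj, ne_eq]
      rw [(Fin.castLE_injective h).eq_iff]
    rw [h1]
    exact hG.2.comap ⟨(SimpleGraph.Embedding.comap (Fin.castLEEmb h) Gᶜ).toCopy⟩

theorem rankLE_comap {F : Type} [Field F] {n n' r : ℕ} (h : n ≤ n') {G : SimpleGraph (Fin n')}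
    (hG : RankLE F G r) : RankLE F (G.comap (Fin.castLE h)) r := by
  obtain ⟨M, ⟨hM, hcol⟩, hrk⟩ := hG
  refine ⟨M.submatrix (Fin.castLE h) (Fin.castLE h), ⟨?_, ?_⟩, ?_⟩
  · ext x y
    exact hM.apply _ _
  · intro x y x' y' hxy hxy' hm
    exact hcol _ _ _ _ (fun e => hxy (Fin.castLE_injective h e))
      (fun e => hxy' (Fin.castLE_injective h e)) hm
  · exact (Matrix.rank_submatrix_le _ _ _).trans hrk

theorem rankLE_trivial (F : Type) [Field F] {n r : ℕ} (h : n ≤ r) (G : SimpleGraph (Fin n)) :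
    RankLE F G r := by
  classical
  refine ⟨Matrix.of fun x y => if G.Adj x y then 1 else 0, ⟨?_, ?_⟩, ?_⟩
  · ext x y
    simp only [Matrix.transpose_apply, Matrix.of_apply]
    rw [G.adj_comm]
  · intro x y x' y' _ _ hm
    simp only [Matrix.of_apply] at hm
    by_cases h1 : G.Adj x y <;> by_cases h2 : G.Adj x' y' <;> simp_all
  · refine le_trans (Matrix.rank_le_card_width _) ?_
    rwa [Fintype.card_fin]

end restr

section ram

theorem arrows_iff (n k : ℕ) : (∀ G : SimpleGraph (Fin n), ¬ NoMono G k) ↔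
    Pool.Agent.H818R2.Ram.Arrows n k k := by
  unfold Pool.Agent.H818R2.Ram.Arrows NoMono SimpleGraph.CliqueFree
  apply forall_congr'
  intro G
  constructor
  · intro h
    by_contra hcon
    push Not at hcon
    exact h hcon
  · rintro (⟨s, hs⟩ | ⟨s, hs⟩) ⟨h1, h2⟩
    · exact h1 s hs
    · exact h2 s hs

theorem ramsey_spec (k : ℕ) : ∀ G : SimpleGraph (Fin (ramsey k)), ¬ NoMono G k := by
  have hne : {n : ℕ | ∀ G : SimpleGraph (Fin n), ¬ NoMono G k}.Nonempty := by
    obtain ⟨n, hn⟩ := Pool.Agent.H818R2.Ram.arrows_exists k k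
    exact ⟨n, (arrows_iff n k).2 hn⟩
  exact Nat.sInf_mem hne

theorem rankRamsey_spec (F : Type) [Field F] (r k : ℕ) :
    ∀ G : SimpleGraph (Fin (rankRamsey F r k)), RankLE F G r → ¬ NoMono G k := by
  have hne : {n : ℕ | ∀ G : SimpleGraph (Fin n), RankLE F G r → ¬ NoMono G k}.Nonempty :=
    ⟨ramsey k, fun G _ => ramsey_spec k G⟩
  exact Nat.sInf_mem hne

theorem lt_rankRamsey {F : Type} [Field F] {n r k : ℕ} {G : SimpleGraph (Fin n)}
    (hr : RankLE F G r) (hG : NoMono G k) : n < rankRamsey F r k := by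
  by_contra hcon
  push Not at hcon
  exact rankRamsey_spec F r k _ (rankLE_comap hcon hr) (noMono_comap hcon hG)

theorem rankRamsey_le_ramsey (F : Type) [Field F] (r k : ℕ) : rankRamsey F r k ≤ ramsey k :=
  Nat.sInf_le (fun G _ => ramsey_spec k G)

theorem rankRamsey_eq (F : Type) [Field F] (r k : ℕ) (h : ramsey k ≤ r + 1) :
    rankRamsey F r k = ramsey k := by
  apply le_antisymm (rankRamsey_le_ramsey F r k)
  by_contra hcon
  push Not at hcon
  have h1 : rankRamsey F r k ∉ {n : ℕ | ∀ G : SimpleGraph (Fin n), ¬ NoMono G k} :=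
    Nat.notMem_of_lt_sInf hcon
  apply h1
  intro G
  exact rankRamsey_spec F r k G (rankLE_trivial F (by omega) G)

theorem rankRamsey_le {F : Type} [Field F] [Fintype F] (r k : ℕ) (hk : 1 ≤ k) :
    rankRamsey F r k ≤ k * Fintype.card F ^ ((r + 4) / 2) := by
  have hQ : 1 ≤ Fintype.card F ^ ((r + 4) / 2) := Nat.one_le_pow _ _ Fintype.card_pos
  by_contra hcon
  push Not at hcon
  have h1 : k * Fintype.card F ^ ((r + 4) / 2) ∉
      {n : ℕ | ∀ G : SimpleGraph (Fin n), RankLE F G r → ¬ NoMono G k} :=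
    Nat.notMem_of_lt_sInf hcon
  apply h1
  intro G hr hG
  have h2 := upper hr hG
  obtain ⟨j, rfl⟩ : ∃ j, k = j + 1 := ⟨k - 1, by omega⟩
  rw [Nat.add_sub_cancel, Nat.add_mul, one_mul] at h2
  omega

theorem one_le_rankRamsey (F : Type) [Field F] (r k : ℕ) (hk : 1 ≤ k) :
    1 ≤ rankRamsey F r k := by
  have h : (0 : ℕ) < rankRamsey F r k := by
    refine lt_rankRamsey (G := (⊥ : SimpleGraph (Fin 0))) (rankLE_trivial F (Nat.zero_le r) _) ?_
    constructor
    · intro s hs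
      have h1 := hs.2
      have h2 : s.card ≤ 0 := (card_le_univ s).trans (by simp)
      omega
    · intro s hs
      have h1 := hs.2
      have h2 : s.card ≤ 0 := (card_le_univ s).trans (by simp)
      omega
  exact h

end ram

section lower

theorem rankLE_twoRank {n : ℕ} (G : SimpleGraph (Fin n)) : RankLE (ZMod 2) G (twoRank G) := by
  classical
  refine ⟨G.adjMatrix (ZMod 2), ⟨G.isSymm_adjMatrix, ?_⟩, ?_⟩
  · intro x y x' y' _ _ hm
    simp only [SimpleGraph.adjMatrix_apply] at hm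
    by_cases h1 : G.Adj x y <;> by_cases h2 : G.Adj x' y' <;> simp_all
  · unfold twoRank
    refine le_of_eq ?_
    congr!

theorem RankLE.mono {F : Type} [Field F] {n r r' : ℕ} {G : SimpleGraph (Fin n)} (h : r ≤ r')
    (hG : RankLE F G r) : RankLE F G r' := by
  obtain ⟨M, hM, hr⟩ := hG
  exact ⟨M, hM, hr.trans h⟩

theorem lower_two (m k n : ℕ) (hk : 7 ≤ k) (hmk : m ≤ k)
    (h : n ^ (2 * k) * 2 ^ (m ^ 2) ≤ 2 ^ (2 * m * k)) :
    ∃ G : SimpleGraph (Fin n), NoMono G k ∧ twoRank G ≤ 2 * m := by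
  classical
  obtain ⟨G, M, hM, hr, hd, hadj, h1, h2⟩ := Pool.Agent.H370RR.lower_two m k n hk hmk h
  refine ⟨G, ⟨h1, h2⟩, ?_⟩
  have hM' : M = G.adjMatrix (ZMod 2) := by
    ext x y
    rw [SimpleGraph.adjMatrix_apply]
    by_cases hxy : G.Adj x y
    · rw [if_pos hxy]
      exact (hadj x y).1 hxy
    · rw [if_neg hxy]
      have h3 : ∀ a : ZMod 2, a ≠ 1 → a = 0 := by decide
      exact h3 _ (fun e => hxy ((hadj x y).2 e))
  unfold twoRank
  rw [hM'] at hr
  refine le_trans (le_of_eq ?_) hr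
  congr!

theorem lower_general (F : Type) [Field F] [Fintype F] (m k n : ℕ) (hm : 1 ≤ m) (hk : 3 ≤ k)
    (h : n ^ k * Fintype.card F ^ (4 * Fintype.card F ^ 2 * m ^ 2 + 4 * k) ≤
      Fintype.card F ^ (m * k)) :
    ∃ G : SimpleGraph (Fin n), NoMono G k ∧ RankLE F G (2 * m) := by
  obtain ⟨G, M, hM, hr, hd, hadj, h1, h2⟩ := Pool.Agent.H370RR.lower_general F m k n hm hk h
  refine ⟨G, ⟨h1, h2⟩, M, ⟨hM, ?_⟩, hr⟩
  intro x y x' y' _ _ hm'
  rw [hadj, hadj, hm']

end lower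

section growth

theorem log_upper (F : Type) [Field F] [Fintype F] (r k : ℕ) (hk : 1 ≤ k) :
    Real.log (rankRamsey F r k) ≤ Real.log k + ((r : ℝ) / 2 + 2) * Real.log (Fintype.card F) := by
  have h1 := rankRamsey_le (F := F) r k hk
  have h0 : (0 : ℝ) < rankRamsey F r k := by exact_mod_cast one_le_rankRamsey F r k hk
  have hq : (1 : ℝ) < Fintype.card F := by exact_mod_cast Fintype.one_lt_card (α := F)
  have hk0 : (0 : ℝ) < k := by exact_mod_cast hk
  have h2 : (rankRamsey F r k : ℝ) ≤ k * (Fintype.card F : ℝ) ^ ((r + 4) / 2) := by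
    exact_mod_cast h1
  have h3 := Real.log_le_log h0 h2
  rw [Real.log_mul hk0.ne' (by positivity), Real.log_pow] at h3
  refine h3.trans ?_
  have h4 : (((r + 4) / 2 : ℕ) : ℝ) ≤ (r : ℝ) / 2 + 2 := by
    have h5 : 2 * ((r + 4) / 2) ≤ r + 4 := Nat.mul_div_le _ _
    have h6 : 2 * (((r + 4) / 2 : ℕ) : ℝ) ≤ r + 4 := by exact_mod_cast h5
    linarith
  have := mul_le_mul_of_nonneg_right h4 (Real.log_pos hq).le
  linarith

theorem growth_upper (F : Type) [Field F] [Fintype F] (ε : ℝ) (hε : 0 ≤ ε) (k : ℕ) (hk : 1 ≤ k) :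
    Real.log (rankRamsey F ⌊ε * k⌋₊ k) / k ≤
      (ε / 2 + 2 / k) * Real.log (Fintype.card F) + Real.log k / k := by
  have hk0 : (0 : ℝ) < k := by exact_mod_cast hk
  have h1 := log_upper F ⌊ε * k⌋₊ k hk
  have hq : (1 : ℝ) < Fintype.card F := by exact_mod_cast Fintype.one_lt_card (α := F)
  have h2 : ((⌊ε * k⌋₊ : ℕ) : ℝ) ≤ ε * k := Nat.floor_le (by positivity)
  have h3 : ((⌊ε * k⌋₊ : ℕ) : ℝ) / 2 + 2 ≤ (ε / 2 + 2 / k) * k := by
    have : (ε / 2 + 2 / k) * k = ε * k / 2 + 2 := by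
      field_simp
    rw [this]
    linarith
  have h4 := mul_le_mul_of_nonneg_right h3 (Real.log_pos hq).le
  rw [div_le_iff₀ hk0]
  have h5 : ((ε / 2 + 2 / k) * Real.log (Fintype.card F) + Real.log k / k) * k =
      (ε / 2 + 2 / k) * k * Real.log (Fintype.card F) + Real.log k := by
    field_simp
  rw [h5]
  linarith

theorem growth_two (ε : ℝ) (hε : 0 ≤ ε) (hε2 : ε ≤ 2) (k : ℕ) (hk : 7 ≤ k) :
    (ε / 2 - ε ^ 2 / 8 - 1 / k) * Real.log 2 ≤
      Real.log (rankRamsey (ZMod 2) ⌊ε * k⌋₊ k) / k := by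
  have hk0 : (0 : ℝ) < k := by
    have : 0 < k := by omega
    exact_mod_cast this
  have hl2 : 0 < Real.log 2 := Real.log_pos (by norm_num)
  set m := ⌊ε * k / 2⌋₊ with hm
  have hm1 : (m : ℝ) ≤ ε * k / 2 := Nat.floor_le (by positivity)
  have hm2 : ε * k / 2 < m + 1 := Nat.lt_floor_add_one _
  have hmk : m ≤ k := by
    have : (m : ℝ) ≤ k := by nlinarith
    exact_mod_cast this
  set x : ℝ := m - (m : ℝ) ^ 2 / (2 * k) with hx
  set n := ⌊(2 : ℝ) ^ x⌋₊ with hn
  have hnle : (n : ℝ) ≤ (2 : ℝ) ^ x := Nat.floor_le (by positivity)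
  have hnlt : (2 : ℝ) ^ x < n + 1 := Nat.lt_floor_add_one _
  have hcond : n ^ (2 * k) * 2 ^ (m ^ 2) ≤ 2 ^ (2 * m * k) := by
    have h1 : (n : ℝ) ^ (2 * k) ≤ ((2 : ℝ) ^ x) ^ (2 * k) :=
      pow_le_pow_left₀ (by positivity) hnle _
    have h2 : ((2 : ℝ) ^ x) ^ (2 * k) * 2 ^ (m ^ 2) = 2 ^ (2 * m * k) := by
      rw [← Real.rpow_natCast ((2 : ℝ) ^ x), ← Real.rpow_mul (by norm_num),
        ← Real.rpow_natCast 2 (m ^ 2), ← Real.rpow_natCast 2 (2 * m * k),
        ← Real.rpow_add (by norm_num)]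
      congr 1
      push_cast
      rw [hx]
      field_simp
      ring
    have h3 : (n : ℝ) ^ (2 * k) * 2 ^ (m ^ 2) ≤ 2 ^ (2 * m * k) := by
      rw [← h2]
      exact mul_le_mul_of_nonneg_right h1 (by positivity)
    exact_mod_cast h3
  obtain ⟨G, hG, hr⟩ := lower_two m k n hk hmk hcond
  have hr2 : twoRank G ≤ ⌊ε * k⌋₊ := by
    refine hr.trans (Nat.le_floor ?_)
    push_cast
    linarith
  have h4 := lt_rankRamsey ((rankLE_twoRank G).mono hr2) hG
  have h5 : (2 : ℝ) ^ x ≤ rankRamsey (ZMod 2) ⌊ε * k⌋₊ k := by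
    have : ((n + 1 : ℕ) : ℝ) ≤ rankRamsey (ZMod 2) ⌊ε * k⌋₊ k := by exact_mod_cast h4
    push_cast at this
    linarith
  have h6 := Real.log_le_log (by positivity) h5
  rw [Real.log_rpow (by norm_num)] at h6
  rw [le_div_iff₀ hk0]
  refine le_trans ?_ h6
  have h7 : (ε / 2 - ε ^ 2 / 8 - 1 / k) * k ≤ x := by
    have e1 : (ε / 2 - ε ^ 2 / 8 - 1 / k) * k = ε * k / 2 - ε ^ 2 / 8 * k - 1 := by
      field_simp
    have e2 : (m : ℝ) ^ 2 / (2 * k) ≤ ε ^ 2 / 8 * k := by
      rw [div_le_iff₀ (by positivity)]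
      have : (m : ℝ) ^ 2 ≤ (ε * k / 2) ^ 2 := pow_le_pow_left₀ (by positivity) hm1 2
      nlinarith
    rw [e1, hx]
    linarith
  have h8 := mul_le_mul_of_nonneg_right h7 hl2.le
  calc (ε / 2 - ε ^ 2 / 8 - 1 / k) * Real.log 2 * k =
      (ε / 2 - ε ^ 2 / 8 - 1 / k) * k * Real.log 2 := by ring
    _ ≤ _ := h8

theorem growth_general (F : Type) [Field F] [Fintype F] (ε : ℝ) (hε : 0 ≤ ε) (k : ℕ)
    (hk : 3 ≤ k) :
    (ε / 2 - (Fintype.card F : ℝ) ^ 2 * ε ^ 2 - 6 / k) * Real.log (Fintype.card F) ≤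
      Real.log (rankRamsey F ⌊ε * k⌋₊ k) / k := by
  have hk0 : (0 : ℝ) < k := by
    have : 0 < k := by omega
    exact_mod_cast this
  have hq : (1 : ℝ) < Fintype.card F := by exact_mod_cast Fintype.one_lt_card (α := F)
  have hlq : 0 < Real.log (Fintype.card F) := Real.log_pos hq
  set q := Fintype.card F with hqd
  have hq0 : 0 < q := Fintype.card_pos
  set m := ⌊ε * k / 2⌋₊ with hm
  have hm1 : (m : ℝ) ≤ ε * k / 2 := Nat.floor_le (by positivity)
  have hm2 : ε * k / 2 < m + 1 := Nat.lt_floor_add_one _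
  set c := ⌈4 * (q : ℝ) ^ 2 * (m : ℝ) ^ 2 / k⌉₊ with hc
  have hc1 : 4 * (q : ℝ) ^ 2 * (m : ℝ) ^ 2 / k ≤ c := Nat.le_ceil _
  have hc2 : (c : ℝ) < 4 * (q : ℝ) ^ 2 * (m : ℝ) ^ 2 / k + 1 := Nat.ceil_lt_add_one (by positivity)
  have hmsq : 4 * (q : ℝ) ^ 2 * (m : ℝ) ^ 2 / k ≤ (q : ℝ) ^ 2 * ε ^ 2 * k := by
    rw [div_le_iff₀ hk0]
    have : (m : ℝ) ^ 2 ≤ (ε * k / 2) ^ 2 := pow_le_pow_left₀ (by positivity) hm1 2
    have h2 := mul_le_mul_of_nonneg_left this (show (0 : ℝ) ≤ 4 * (q : ℝ) ^ 2 by positivity)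
    nlinarith
  have e1 : (ε / 2 - (q : ℝ) ^ 2 * ε ^ 2 - 6 / k) * k = ε * k / 2 - (q : ℝ) ^ 2 * ε ^ 2 * k - 6 := by
    field_simp
  have hone : (1 : ℝ) ≤ rankRamsey F ⌊ε * k⌋₊ k := by
    exact_mod_cast one_le_rankRamsey F _ k (by omega)
  rw [le_div_iff₀ hk0]
  have e2 : (ε / 2 - (q : ℝ) ^ 2 * ε ^ 2 - 6 / k) * Real.log q * k =
      (ε * k / 2 - (q : ℝ) ^ 2 * ε ^ 2 * k - 6) * Real.log q := by
    rw [← e1]
    ring
  rw [e2]
  by_cases hbig : c + 4 ≤ m
  · have hm0 : 1 ≤ m := by omega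
    have hcond : (q ^ (m - (c + 4))) ^ k * q ^ (4 * q ^ 2 * m ^ 2 + 4 * k) ≤ q ^ (m * k) := by
      rw [← pow_mul, ← pow_add]
      apply Nat.pow_le_pow_right hq0
      have h1 : 4 * q ^ 2 * m ^ 2 ≤ c * k := by
        rw [div_le_iff₀ hk0] at hc1
        exact_mod_cast hc1
      have h2 : m * k = (m - (c + 4)) * k + (c + 4) * k := by
        rw [← Nat.add_mul]
        congr 1
        omega
      rw [h2, Nat.add_mul]
      omega
    obtain ⟨G, hG, hr⟩ := lower_general F m k _ hm0 hk hcond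
    have hr2 : 2 * m ≤ ⌊ε * k⌋₊ := by
      apply Nat.le_floor
      push_cast
      linarith
    have h4 := lt_rankRamsey (hr.mono hr2) hG
    have h5 : (q : ℝ) ^ (m - (c + 4)) ≤ rankRamsey F ⌊ε * k⌋₊ k := by exact_mod_cast h4.le
    have h6 := Real.log_le_log (by positivity) h5
    rw [Real.log_pow] at h6
    refine le_trans ?_ h6
    apply mul_le_mul_of_nonneg_right _ hlq.le
    rw [Nat.cast_sub hbig]
    push_cast
    linarith
  · push Not at hbig
    have h1 : (m : ℝ) < c + 4 := by exact_mod_cast hbig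
    have h2 : ε * k / 2 - (q : ℝ) ^ 2 * ε ^ 2 * k - 6 ≤ 0 := by linarith
    have h3 : 0 ≤ Real.log (rankRamsey F ⌊ε * k⌋₊ k) := Real.log_nonneg hone
    nlinarith

end growth

section limits

open Filter Topology

theorem iterated (F : Type) [Field F] [Fintype F] (δ : ℝ) (hδ : 0 < δ) :
    ∃ ε₀ : ℝ, 0 < ε₀ ∧ ∀ ε : ℝ, 0 < ε → ε ≤ ε₀ → ∀ᶠ k : ℕ in atTop,
      |Real.log (rankRamsey F ⌊ε * k⌋₊ k) / (ε * k) - Real.log (Fintype.card F) / 2| ≤ δ := by
  have hq : (1 : ℝ) < Fintype.card F := by exact_mod_cast Fintype.one_lt_card (α := F)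
  have hlq : 0 < Real.log (Fintype.card F) := Real.log_pos hq
  set q : ℝ := (Fintype.card F : ℝ) with hqd
  refine ⟨δ / (2 * (q ^ 2 * Real.log q)), by positivity, ?_⟩
  intro ε hε hε2
  have hlim1 : Tendsto (fun k : ℕ => 6 * Real.log q / ε * (1 / (k : ℝ))) atTop (𝓝 (6 * Real.log q / ε * 0)) :=
    Tendsto.const_mul _ tendsto_one_div_atTop_nhds_zero_nat
  have hlim2 : Tendsto (fun k : ℕ => 2 * Real.log q / ε * (1 / (k : ℝ))) atTop (𝓝 (2 * Real.log q / ε * 0)) :=
    Tendsto.const_mul _ tendsto_one_div_atTop_nhds_zero_nat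
  have hlim3 : Tendsto (fun k : ℕ => 1 / ε * (Real.log (k : ℝ) / (k : ℝ))) atTop (𝓝 (1 / ε * 0)) := by
    apply Tendsto.const_mul
    have h1 : Tendsto (fun x : ℝ => Real.log x / x) atTop (𝓝 0) := by
      have := Real.isLittleO_log_id_atTop.tendsto_div_nhds_zero
      simpa using this
    exact h1.comp tendsto_natCast_atTop_atTop
  rw [mul_zero] at hlim1 hlim2 hlim3
  filter_upwards [hlim1.eventually (ge_mem_nhds (show (0 : ℝ) < δ / 2 by positivity)),
    hlim2.eventually (ge_mem_nhds (show (0 : ℝ) < δ / 2 by positivity)),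
    hlim3.eventually (ge_mem_nhds (show (0 : ℝ) < δ / 2 by positivity)),
    eventually_ge_atTop 3] with k h1 h2 h3 hk
  have hk0 : (0 : ℝ) < k := by
    have : 0 < k := by omega
    exact_mod_cast this
  have hup := growth_upper F ε hε.le k (by omega)
  have hlo := growth_general F ε hε.le k hk
  rw [← hqd] at hup hlo
  set X := Real.log (rankRamsey F ⌊ε * k⌋₊ k) / k with hX
  have hdiv : Real.log (rankRamsey F ⌊ε * k⌋₊ k) / (ε * k) = X / ε := by
    rw [hX]
    field_simp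
  rw [hdiv, abs_le]
  constructor
  · have e1 : (ε / 2 - q ^ 2 * ε ^ 2 - 6 / k) * Real.log q / ε ≤ X / ε :=
      div_le_div_of_nonneg_right hlo hε.le
    have e2 : (ε / 2 - q ^ 2 * ε ^ 2 - 6 / k) * Real.log q / ε =
        Real.log q / 2 - q ^ 2 * Real.log q * ε - 6 * Real.log q / ε * (1 / (k : ℝ)) := by
      field_simp
    have e3 : q ^ 2 * Real.log q * ε ≤ δ / 2 := by
      have h4 : 0 < 2 * (q ^ 2 * Real.log q) := by positivity
      rw [le_div_iff₀ h4] at hε2
      linarith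
    rw [e2] at e1
    linarith
  · have e1 : X / ε ≤ ((ε / 2 + 2 / k) * Real.log q + Real.log k / k) / ε :=
      div_le_div_of_nonneg_right hup hε.le
    have e2 : ((ε / 2 + 2 / k) * Real.log q + Real.log k / k) / ε =
        Real.log q / 2 + 2 * Real.log q / ε * (1 / (k : ℝ)) + 1 / ε * (Real.log k / k) := by
      field_simp
    rw [e2] at e1
    linarith

/-- Rank at most `(2 - δ) log n / log q` forces homogeneous sets of polynomial size. -/
theorem poly_hom (F : Type) [Field F] [Fintype F] (δ : ℝ) (n r : ℕ) (hn : 1 ≤ n)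
    (G : SimpleGraph (Fin n)) (hG : RankLE F G r)
    (hr : (r : ℝ) * Real.log (Fintype.card F) ≤ (2 - δ) * Real.log n) :
    ∃ s : Finset (Fin n), (G.IsClique s ∨ Gᶜ.IsClique s) ∧
      (n : ℝ) ^ (δ / 2) / (Fintype.card F : ℝ) ^ 2 ≤ s.card := by
  have hq : (1 : ℝ) < Fintype.card F := by exact_mod_cast Fintype.one_lt_card (α := F)
  have hlq : 0 < Real.log (Fintype.card F) := Real.log_pos hq
  have hn0 : (0 : ℝ) < n := by exact_mod_cast hn
  by_contra hcon
  push Not at hcon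
  set h : ℝ := (n : ℝ) ^ (δ / 2) / (Fintype.card F : ℝ) ^ 2 with hh
  have hh0 : 0 < h := by positivity
  have hmono : NoMono G ⌈h⌉₊ := by
    constructor
    · intro s hs
      have h1 := hcon s (Or.inl hs.1)
      rw [hs.2] at h1
      exact absurd (Nat.le_ceil h) (not_le.2 h1)
    · intro s hs
      have h1 := hcon s (Or.inr hs.1)
      rw [hs.2] at h1
      exact absurd (Nat.le_ceil h) (not_le.2 h1)
  have h1 := upper hG hmono
  have hk1 : 1 ≤ ⌈h⌉₊ := Nat.one_le_ceil_iff.2 hh0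
  have h2 : ((⌈h⌉₊ - 1 : ℕ) : ℝ) < h := by
    rw [Nat.cast_sub hk1]
    have := Nat.ceil_lt_add_one hh0.le
    push_cast
    linarith
  have h3 : (n : ℝ) ≤ ((⌈h⌉₊ - 1 : ℕ) : ℝ) * (Fintype.card F : ℝ) ^ ((r + 4) / 2) := by
    exact_mod_cast h1
  have h4 : (Fintype.card F : ℝ) ^ ((r + 4) / 2) ≤
      (n : ℝ) ^ (1 - δ / 2) * (Fintype.card F : ℝ) ^ 2 := by
    rw [← Real.log_le_log_iff (by positivity) (by positivity), Real.log_pow,
      Real.log_mul (by positivity) (by positivity), Real.log_rpow hn0, Real.log_pow]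
    have h5 : (((r + 4) / 2 : ℕ) : ℝ) ≤ (r : ℝ) / 2 + 2 := by
      have h5 : 2 * ((r + 4) / 2) ≤ r + 4 := Nat.mul_div_le _ _
      have h6 : 2 * (((r + 4) / 2 : ℕ) : ℝ) ≤ r + 4 := by exact_mod_cast h5
      linarith
    have h6 := mul_le_mul_of_nonneg_right h5 hlq.le
    push_cast
    linarith
  have h5 : (n : ℝ) < h * ((n : ℝ) ^ (1 - δ / 2) * (Fintype.card F : ℝ) ^ 2) := by
    refine lt_of_le_of_lt h3 ?_
    refine lt_of_le_of_lt (mul_le_mul_of_nonneg_left h4 (by positivity)) ?_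
    exact mul_lt_mul_of_pos_right h2 (by positivity)
  have h6 : h * ((n : ℝ) ^ (1 - δ / 2) * (Fintype.card F : ℝ) ^ 2) = n := by
    rw [hh]
    have : (n : ℝ) ^ (δ / 2) * (n : ℝ) ^ (1 - δ / 2) = n := by
      rw [← Real.rpow_add hn0]
      have : δ / 2 + (1 - δ / 2) = 1 := by ring
      rw [this, Real.rpow_one]
    rw [div_mul_eq_mul_div, div_eq_iff (by positivity), ← mul_assoc, this]
  linarith

/-- There are graphs with 2-rank at most `(2 + δ) log₂ n` all of whose homogeneous sets have size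
`O(log n)`. -/
theorem log_hom (δ : ℝ) (hδ : 0 < δ) : ∃ C : ℝ, 0 < C ∧ ∀ᶠ n : ℕ in atTop,
    ∃ G : SimpleGraph (Fin n), (twoRank G : ℝ) ≤ (2 + δ) * (Real.log n / Real.log 2) ∧
      ∀ s : Finset (Fin n), (G.IsClique s ∨ Gᶜ.IsClique s) → (s.card : ℝ) ≤ C * Real.log n := by
  have hl2 : 0 < Real.log 2 := Real.log_pos (by norm_num)
  -- we may take `δ ≤ 1`
  set d := min δ 1 with hd
  have hd0 : 0 < d := lt_min hδ one_pos
  have hd1 : d ≤ 1 := min_le_right _ _
  have hdδ : d ≤ δ := min_le_left _ _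
  refine ⟨(16 / d + 1) / Real.log 2, by positivity, ?_⟩
  have hlog : Tendsto (fun n : ℕ => Real.log (n : ℝ) / Real.log 2) atTop atTop :=
    (Real.tendsto_log_atTop.comp tendsto_natCast_atTop_atTop).atTop_div_const hl2
  filter_upwards [hlog.eventually_ge_atTop (32 / d + 7), eventually_ge_atTop 1] with n hL hn
  set L := Real.log (n : ℝ) / Real.log 2 with hLd
  have hn0 : (0 : ℝ) < n := by exact_mod_cast hn
  have hdinv : 16 ≤ 16 / d := by
    rw [le_div_iff₀ hd0]
    linarith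
  have hd32 : 32 / d = 2 * (16 / d) := by ring
  have hL0 : 39 ≤ L := by linarith
  set m := ⌊(1 + d / 2) * L⌋₊ with hm
  have hm1 : (m : ℝ) ≤ (1 + d / 2) * L := Nat.floor_le (by positivity)
  have hm2 : (1 + d / 2) * L < m + 1 := Nat.lt_floor_add_one _
  set k := ⌈16 / d * L⌉₊ with hk
  have hk1 : 16 / d * L ≤ k := Nat.le_ceil _
  have hk2 : (k : ℝ) < 16 / d * L + 1 := Nat.ceil_lt_add_one (by positivity)
  have hm3 : (m : ℝ) ≤ 3 / 2 * L := by nlinarith
  have hk7 : 7 ≤ k := by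
    have : (7 : ℝ) ≤ k := by nlinarith
    exact_mod_cast this
  have hmk : m ≤ k := by
    have : (m : ℝ) ≤ k := by nlinarith
    exact_mod_cast this
  have hn2 : (n : ℝ) = (2 : ℝ) ^ L := by
    rw [hLd, ← Real.rpow_logb (by norm_num : (0 : ℝ) < 2) (by norm_num) hn0]
    congr 1
    rw [Real.rpow_logb (by norm_num : (0 : ℝ) < 2) (by norm_num) hn0]
    rfl
  have hcond : n ^ (2 * k) * 2 ^ (m ^ 2) ≤ 2 ^ (2 * m * k) := by
    have h1 : (n : ℝ) ^ (2 * k) * 2 ^ (m ^ 2) ≤ 2 ^ (2 * m * k) := by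
      rw [hn2, ← Real.rpow_natCast ((2 : ℝ) ^ L), ← Real.rpow_mul (by norm_num),
        ← Real.rpow_natCast 2 (m ^ 2), ← Real.rpow_natCast 2 (2 * m * k),
        ← Real.rpow_add (by norm_num)]
      apply Real.rpow_le_rpow_of_exponent_le (by norm_num)
      push_cast
      have e1 : (m : ℝ) - L ≥ d / 2 * L - 1 := by linarith
      have e2 : 0 ≤ d / 2 * L - 1 := by
        have : 32 ≤ d * L := by
          have h3 : 32 / d ≤ L := by linarith
          rw [div_le_iff₀ hd0] at h3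
          linarith
        linarith
      have e3 : 2 * (k : ℝ) * ((m : ℝ) - L) ≥ 2 * (16 / d * L) * (d / 2 * L - 1) := by
        have := mul_le_mul hk1 e1 e2 (by positivity)
        nlinarith
      have e4 : 2 * (16 / d * L) * (d / 2 * L - 1) = 16 * L ^ 2 - 32 / d * L := by
        field_simp
        ring
      have e5 : 32 / d * L ≤ L * L := by
        apply mul_le_mul_of_nonneg_right _ (by linarith)
        linarith
      have e6 : (m : ℝ) ^ 2 ≤ (3 / 2 * L) ^ 2 := pow_le_pow_left₀ (by positivity) hm3 2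
      nlinarith
    exact_mod_cast h1
  obtain ⟨G, hG, hr⟩ := lower_two m k n hk7 hmk hcond
  refine ⟨G, ?_, ?_⟩
  · have h1 : (twoRank G : ℝ) ≤ 2 * m := by exact_mod_cast hr
    have h2 : d * L ≤ δ * L := mul_le_mul_of_nonneg_right hdδ (by linarith)
    linarith
  · intro s hs
    have hsk : s.card < k := by
      by_contra hcon
      push Not at hcon
      obtain ⟨t, ht, htk⟩ := Finset.exists_subset_card_eq hcon
      rcases hs with hs | hs
      · exact hG.1 t ⟨hs.subset (by exact_mod_cast ht), htk⟩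
      · exact hG.2 t ⟨hs.subset (by exact_mod_cast ht), htk⟩
    have h1 : (s.card : ℝ) ≤ k - 1 := by
      have : ((s.card + 1 : ℕ) : ℝ) ≤ k := by exact_mod_cast hsk
      push_cast at this
      linarith
    have h2 : (16 / d + 1) / Real.log 2 * Real.log n = (16 / d + 1) * L := by
      rw [hLd]
      ring
    rw [h2]
    nlinarith

end limits

/-- **Main result.**  `q` denotes the number of elements of `F`. -/
theorem result :
    -- (1) the index set of a symmetric matrix of rank `ρ` over `F` can be split into at most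
    -- `q ^ (⌊ρ / 2⌋ + 2)` classes such that the diagonal blocks are constant matrices
    (∀ (F : Type) [Field F] [Fintype F] (n : ℕ) (M : Matrix (Fin n) (Fin n) F), M.IsSymm →
      ∃ c : Fin n → Fin (Fintype.card F ^ (M.rank / 2 + 2)), ∀ i j i' j' : Fin n,
        c i = c j → c i' = c j' → c i = c i' → M i j = M i' j') ∧
    -- (2) upper bound for every finite field: a colouring of `K_n` of `F`-rank at most `r` without
    -- monochromatic `K_k` has `n ≤ (k - 1) q ^ (⌊r / 2⌋ + 2)`; so its rank is at least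
    -- `2 log_q (n / (k - 1)) - 4`
    (∀ (F : Type) [Field F] [Fintype F] (n k r : ℕ) (G : SimpleGraph (Fin n)), RankLE F G r →
      NoMono G k → n ≤ (k - 1) * Fintype.card F ^ (r / 2 + 2)) ∧
    -- (3) lower bound for two elements: for `m ≤ k` and `n ≤ 2 ^ (m - m ^ 2 / (2 k))` there is a
    -- colouring of `K_n` without monochromatic `K_k` whose red adjacency matrix has rank `≤ 2 m`
    (∀ m k n : ℕ, 7 ≤ k → m ≤ k → n ^ (2 * k) * 2 ^ (m ^ 2) ≤ 2 ^ (2 * m * k) →
      ∃ G : SimpleGraph (Fin n), NoMono G k ∧ twoRank G ≤ 2 * m) ∧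
    -- in particular the lower bound `2 ^ (k / 2)` of Erdős is attained with rank at most `2 k`
    (∀ k n : ℕ, 7 ≤ k → n ^ 2 ≤ 2 ^ k →
      ∃ G : SimpleGraph (Fin n), NoMono G k ∧ twoRank G ≤ 2 * k) ∧
    -- (4) lower bound for every finite field: for `n ≤ q ^ (m - 4 - 4 q ^ 2 m ^ 2 / k)` there is a
    -- colouring of `K_n` without monochromatic `K_k` of `F`-rank at most `2 m`
    (∀ (F : Type) [Field F] [Fintype F] (m k n : ℕ), 1 ≤ m → 3 ≤ k →
      n ^ k * Fintype.card F ^ (4 * Fintype.card F ^ 2 * m ^ 2 + 4 * k) ≤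
        Fintype.card F ^ (m * k) → ∃ G : SimpleGraph (Fin n), NoMono G k ∧ RankLE F G (2 * m)) ∧
    -- (5) the growth rate for rank `ε k` over the field with two elements lies between
    -- `(ε / 2 - ε ^ 2 / 8) log 2` and `(ε / 2) log 2`, for `0 ≤ ε ≤ 2`
    (∀ (ε : ℝ), 0 ≤ ε → ε ≤ 2 → ∀ k : ℕ, 7 ≤ k →
      (ε / 2 - ε ^ 2 / 8 - 1 / k) * Real.log 2 ≤
        Real.log (rankRamsey (ZMod 2) ⌊ε * k⌋₊ k) / k ∧
      Real.log (rankRamsey (ZMod 2) ⌊ε * k⌋₊ k) / k ≤
        (ε / 2 + 2 / k) * Real.log 2 + Real.log k / k) ∧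
    -- (6) and over every finite field it lies between `(ε / 2 - q ^ 2 ε ^ 2) log q` and
    -- `(ε / 2) log q`
    (∀ (F : Type) [Field F] [Fintype F] (ε : ℝ), 0 ≤ ε → ∀ k : ℕ, 3 ≤ k →
      (ε / 2 - (Fintype.card F : ℝ) ^ 2 * ε ^ 2 - 6 / k) * Real.log (Fintype.card F) ≤
        Real.log (rankRamsey F ⌊ε * k⌋₊ k) / k ∧
      Real.log (rankRamsey F ⌊ε * k⌋₊ k) / k ≤
        (ε / 2 + 2 / k) * Real.log (Fintype.card F) + Real.log k / k) ∧
    -- (7) so the growth rate for rank `ε k` is asymptotic to `(log q / 2) ε` as `ε → 0`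
    (∀ (F : Type) [Field F] [Fintype F] (δ : ℝ), 0 < δ → ∃ ε₀ : ℝ, 0 < ε₀ ∧ ∀ ε : ℝ, 0 < ε →
      ε ≤ ε₀ → ∀ᶠ k : ℕ in Filter.atTop,
        |Real.log (rankRamsey F ⌊ε * k⌋₊ k) / (ε * k) - Real.log (Fintype.card F) / 2| ≤ δ) ∧
    -- (8) a sharp threshold at rank `2 log₂ n`: below it there are homogeneous sets of polynomial
    -- size (over every finite field), above it there may be only homogeneous sets of size `O(log n)`
    (∀ (F : Type) [Field F] [Fintype F] (δ : ℝ) (n r : ℕ), 1 ≤ n → ∀ G : SimpleGraph (Fin n),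
      RankLE F G r → (r : ℝ) * Real.log (Fintype.card F) ≤ (2 - δ) * Real.log n →
      ∃ s : Finset (Fin n), (G.IsClique s ∨ Gᶜ.IsClique s) ∧
        (n : ℝ) ^ (δ / 2) / (Fintype.card F : ℝ) ^ 2 ≤ s.card) ∧
    (∀ δ : ℝ, 0 < δ → ∃ C : ℝ, 0 < C ∧ ∀ᶠ n : ℕ in Filter.atTop,
      ∃ G : SimpleGraph (Fin n), (twoRank G : ℝ) ≤ (2 + δ) * (Real.log n / Real.log 2) ∧
        ∀ s : Finset (Fin n), (G.IsClique s ∨ Gᶜ.IsClique s) → (s.card : ℝ) ≤ C * Real.log n) ∧
    -- (9) relation to the unrestricted numbers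
    (∀ (n : ℕ) (G : SimpleGraph (Fin n)), RankLE (ZMod 2) G (twoRank G)) ∧
    (∀ (F : Type) [Field F] (r k : ℕ), rankRamsey F r k ≤ ramsey k ∧
      (ramsey k ≤ r + 1 → rankRamsey F r k = ramsey k)) ∧
    -- (10) every colouring without monochromatic `K_k` on at least `2 ^ (k / 2)` vertices has rank
    -- at least `(k log 2 - 2 log k) / log q - 4` over every field with `q` elements
    (∀ (F : Type) [Field F] [Fintype F] (n k r : ℕ) (G : SimpleGraph (Fin n)), 1 ≤ k →
      RankLE F G r → NoMono G k → 2 ^ k ≤ n ^ 2 →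
      k * Real.log 2 ≤ 2 * Real.log k + (r + 4) * Real.log (Fintype.card F)) := by
  have hdiv : ∀ r : ℕ, r / 2 + 2 = (r + 4) / 2 := fun r => by omega
  refine ⟨?_, ?_, lower_two, ?_, lower_general, ?_, ?_, iterated, poly_hom, log_hom,
    fun n G => rankLE_twoRank G, fun F _ r k => ⟨rankRamsey_le_ramsey F r k, rankRamsey_eq F r k⟩,
    ?_⟩
  · intro F _ _ n M hM
    rw [hdiv]
    exact Pool.Agent.H370RR.partition M hM
  · intro F _ _ n k r G hr hG
    rw [hdiv]
    exact upper hr hG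
  · intro k n hk hn
    apply lower_two k k n hk le_rfl
    have h1 : (n ^ 2) ^ k ≤ (2 ^ k) ^ k := Nat.pow_le_pow_left hn k
    rw [← pow_mul, ← pow_mul] at h1
    calc n ^ (2 * k) * 2 ^ (k ^ 2) ≤ 2 ^ (k * k) * 2 ^ (k ^ 2) := Nat.mul_le_mul_right _ h1
      _ = 2 ^ (2 * k * k) := by
        rw [← pow_add]
        congr 1
        ring
  · intro ε hε hε2 k hk
    refine ⟨growth_two ε hε hε2 k hk, ?_⟩
    have := growth_upper (ZMod 2) ε hε k (by omega)
    rwa [ZMod.card] at this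
  · intro F _ _ ε hε k hk
    exact ⟨growth_general F ε hε k hk, growth_upper F ε hε k (by omega)⟩
  · intro F _ _ n k r G hk hr hG hn
    have h1 : n < rankRamsey F r k := lt_rankRamsey hr hG
    have h2 := log_upper F r k hk
    have hn0 : 0 < n := by
      rcases Nat.eq_zero_or_pos n with h0 | h0
      · subst h0
        have : 0 < 2 ^ k := by positivity
        simp at hn
      · exact h0
    have h3 : Real.log n ≤ Real.log (rankRamsey F r k) :=
      Real.log_le_log (by exact_mod_cast hn0) (by exact_mod_cast h1.le)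
    have h4 : ((2 : ℝ) ^ k) ≤ (n : ℝ) ^ 2 := by exact_mod_cast hn
    have h5 := Real.log_le_log (by positivity) h4
    rw [Real.log_pow, Real.log_pow] at h5
    push_cast at h5
    linarith

end Pool.Agent.Results.MP_28724c_co.FiniteFieldRank
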