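import Pool.Agent.Helper524_PR.Quadric
import Pool.Agent.Helper524_PR.OrdExist
import Pool.Agent.H818R2.Ram.Basic

/-!
MP_28724c_co (helper524): diagonal Ramsey numbers of two-colourings of small rank.

A colouring of the edges of `K_n` with two colours is given by the graph `G` of its first colour.
Two classes: the adjacency matrix of `G` has rank at most `r` over the field with two elements; and,
over any finite field, the colour of every pair `x < y` is determined by the entry `(x, y)` of a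
matrix of rank at most `r`.
-/

set_option autoImplicit false

namespace Pool.Agent.Results.MP_28724c_co.LowRankColourings

open Filter Finset

/-- The colouring of the edges of `K_n` with colour classes `G` and `Gᶜ` has no monochromatic
`K_k`. -/
def NoMono {n : ℕ} (G : SimpleGraph (Fin n)) (k : ℕ) : Prop :=
  G.CliqueFree k ∧ Gᶜ.CliqueFree k

/-- The diagonal Ramsey number `R(k,k)`. -/
noncomputable def ramsey (k : ℕ) : ℕ := sInf {n : ℕ | ∀ G : SimpleGraph (Fin n), ¬ NoMono G k}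

open Classical in
/-- The adjacency matrix of `G` over the field with two elements has rank at most `r`. -/
def AdjRank (r : ℕ) {n : ℕ} (G : SimpleGraph (Fin n)) : Prop :=
  (G.adjMatrix (ZMod 2)).rank ≤ r

/-- The Ramsey number of the colourings of adjacency rank at most `r`: the least `n` such that all
such colourings of the edges of `K_n` contain a monochromatic `K_k`. -/
noncomputable def adjRamsey (r k : ℕ) : ℕ :=
  sInf {n : ℕ | ∀ G : SimpleGraph (Fin n), AdjRank r G → ¬ NoMono G k}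

/-- The colouring has ordered rank at most `r` over `F`: for some matrix over `F` of rank at most
`r` the colour of every pair `x < y` is determined by the entry in row `x` and column `y`. -/
def OrdRank (F : Type) [Field F] (r : ℕ) {n : ℕ} (G : SimpleGraph (Fin n)) : Prop :=
  ∃ M : Matrix (Fin n) (Fin n) F, M.rank ≤ r ∧
    ∀ x y x' y' : Fin n, x < y → x' < y' → M x y = M x' y' → (G.Adj x y ↔ G.Adj x' y')

/-- The Ramsey number of the colourings of ordered rank at most `r` over `F`: the least `n` such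
that all such colourings of the edges of `K_n` contain a monochromatic `K_k`. -/
noncomputable def ordRamsey (F : Type) [Field F] (r k : ℕ) : ℕ :=
  sInf {n : ℕ | ∀ G : SimpleGraph (Fin n), OrdRank F r G → ¬ NoMono G k}

/-! ### The adjacency rank over the field with two elements -/

lemma adjMatrix_eq {n : ℕ} (G : SimpleGraph (Fin n)) [DecidableRel G.Adj] :
    G.adjMatrix (ZMod 2) = H524PR.adj2 G := by
  ext x y
  rw [SimpleGraph.adjMatrix_apply]
  split_ifs with h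
  · exact ((H524PR.adj2_eq_one G x y).2 h).symm
  · exact ((H524PR.adj2_eq_zero G x y).2 h).symm

lemma adjRank_iff {r n : ℕ} (G : SimpleGraph (Fin n)) :
    AdjRank r G ↔ (H524PR.adj2 G).rank ≤ r := by
  classical
  unfold AdjRank
  rw [adjMatrix_eq]

lemma adj_upper {n r k : ℕ} (G : SimpleGraph (Fin n)) (hr : AdjRank r G) (h : NoMono G k) :
    n ≤ (k - 1) * (2 ^ (r / 2) + 1) := by
  have := H524PR.upper_zero G r k ((adjRank_iff G).1 hr) h.2
  rwa [Fintype.card_fin] at this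

lemma adj_lower {n m k : ℕ} (hk : 2 ≤ k) (hmk : m ≤ k)
    (hn : (n : ℝ) ≤ k * (2 : ℝ) ^ ((m : ℝ) - m ^ 2 / (2 * k) - 5)) :
    ∃ G : SimpleGraph (Fin n), AdjRank (2 * m) G ∧ NoMono G k := by
  obtain ⟨f, hf⟩ := H524PR.exists_GV2' n k hk hmk hn
  exact ⟨H524PR.GV f, (adjRank_iff _).2 (H524PR.rank_GV f), hf⟩

lemma sInf_le_of {S : Set ℕ} {b : ℕ} (h : ∀ n, b < n → n ∈ S) : sInf S ≤ b + 1 :=
  Nat.sInf_le (h _ (Nat.lt_succ_self b))

lemma sInf_mem_of {S : Set ℕ} {b : ℕ} (h : ∀ n, b < n → n ∈ S) : sInf S ∈ S :=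
  Nat.sInf_mem ⟨b + 1, h _ (Nat.lt_succ_self b)⟩

lemma adj_set (r k n : ℕ) (h : (k - 1) * (2 ^ (r / 2) + 1) < n) :
    n ∈ {n : ℕ | ∀ G : SimpleGraph (Fin n), AdjRank r G → ¬ NoMono G k} := by
  intro G hr hG
  exact absurd (adj_upper G hr hG) (not_le.2 h)

lemma adjRamsey_le (r k : ℕ) : adjRamsey r k ≤ (k - 1) * (2 ^ (r / 2) + 1) + 1 :=
  sInf_le_of (adj_set r k)

lemma adjRamsey_gt {m k : ℕ} (hk : 2 ≤ k) (hmk : m ≤ k) :
    k * (2 : ℝ) ^ ((m : ℝ) - m ^ 2 / (2 * k) - 5) < adjRamsey (2 * m) k := by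
  by_contra hcon
  push Not at hcon
  obtain ⟨G, h1, h2⟩ := adj_lower hk hmk hcon
  exact sInf_mem_of (adj_set (2 * m) k) G h1 h2

lemma adjRank_mono {r r' n : ℕ} (h : r ≤ r') {G : SimpleGraph (Fin n)} (hG : AdjRank r G) :
    AdjRank r' G := le_trans hG h

lemma adjRamsey_mono {r r' : ℕ} (h : r ≤ r') (k : ℕ) : adjRamsey r k ≤ adjRamsey r' k := by
  have h1 := sInf_mem_of (adj_set r' k)
  exact Nat.sInf_le (fun G hG => h1 G (adjRank_mono h hG))

/-- A colouring given by vectors of `F₂^(2 m)` bounds the Ramsey number from below. -/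
lemma adjRamsey_ge_of {ι : Type} [Fintype ι] {m r k : ℕ} (f : ι → H524PR.SV m)
    (hr : 2 * m ≤ r) (hf : H524PR.NoMono (H524PR.GV f) k) :
    Fintype.card ι + 1 ≤ adjRamsey r k := by
  by_contra hcon
  push Not at hcon
  set q := adjRamsey r k with hq
  have hq' : q ≤ Fintype.card ι := by omega
  have hf2 := H524PR.noMono_equiv (Fintype.equivFin ι).symm f hf
  set g := f ∘ (Fintype.equivFin ι).symm with hg
  have h1 := sInf_mem_of (adj_set r k)
  have h2 : q ∈ {n : ℕ | ∀ G : SimpleGraph (Fin n), AdjRank r G → ¬ NoMono G k} := h1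
  apply h2 (H524PR.GV (g ∘ Fin.castLE hq'))
  · exact (adjRank_iff _).2 ((H524PR.rank_GV _).trans hr)
  · constructor
    · have : H524PR.GV (g ∘ Fin.castLE hq') ↪g H524PR.GV g :=
        ⟨Fin.castLEEmb hq', by intro a b; rfl⟩
      exact hf2.1.comap ⟨this.toCopy⟩
    · have : (H524PR.GV (g ∘ Fin.castLE hq'))ᶜ ↪g (H524PR.GV g)ᶜ :=
        ⟨Fin.castLEEmb hq', by
          intro a b
          rw [SimpleGraph.compl_adj, SimpleGraph.compl_adj]
          simp [H524PR.GV]⟩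
      exact hf2.2.comap ⟨this.toCopy⟩

/-- Exact values. -/
lemma adj_exact {r m a b k : ℕ} (hr : r / 2 = m + 1) (hk : k = (2 ^ m - 1) * a + 2 ^ m * b + 1)
    (hk2 : 2 * (m + 1) + 1 < k) : adjRamsey r k = (k - 1) * (2 ^ (m + 1) + 1) + 1 := by
  apply le_antisymm
  · have := adjRamsey_le r k
    rwa [hr] at this
  · have h1 := adjRamsey_ge_of (r := r) _ (by omega : 2 * (m + 1) ≤ r)
      (H524PR.extremalQ m a b k (by omega) hk2)
    rw [H524PR.card_XQ] at h1
    have h2 : k - 1 = (2 ^ m - 1) * a + 2 ^ m * b := by omega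
    rw [h2]
    exact h1

/-- All large numbers are sums of copies of `2 ^ m - 1` and `2 ^ m`. -/
lemma represent_large {m N : ℕ} (h : (2 ^ m - 1) * (2 ^ m - 2) ≤ N) :
    ∃ a b : ℕ, N = (2 ^ m - 1) * a + 2 ^ m * b := by
  obtain ⟨q, hq⟩ : ∃ q, 2 ^ m = q + 1 := ⟨2 ^ m - 1, by have := Nat.one_le_two_pow (n := m); omega⟩
  rw [hq] at h ⊢
  simp only [Nat.add_sub_cancel] at h ⊢
  rcases Nat.eq_zero_or_pos q with rfl | hpos
  · exact ⟨0, N, by simp⟩
  · have h1 := Nat.div_add_mod N q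
    have h2 := Nat.mod_lt N hpos
    have h3 : q - 1 ≤ N / q := by
      rw [Nat.le_div_iff_mul_le hpos, mul_comm]
      have : q + 1 - 2 = q - 1 := by omega
      rwa [this] at h
    refine ⟨N / q - N % q, N % q, ?_⟩
    have h4 : N % q ≤ N / q := by omega
    obtain ⟨c, hc⟩ := Nat.exists_eq_add_of_le h4
    rw [hc, Nat.add_sub_cancel_left]
    rw [hc] at h1
    have h5 : q * (N % q + c) + N % q = q * c + (q + 1) * (N % q) := by ring
    omega

lemma adj_exact_large {r m k : ℕ} (hr : r / 2 = m + 1) (hk : (2 ^ m - 1) * (2 ^ m - 2) < k)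
    (hk2 : 2 * (m + 1) + 1 < k) : adjRamsey r k = (k - 1) * (2 ^ (m + 1) + 1) + 1 := by
  obtain ⟨a, b, hab⟩ := represent_large (m := m) (N := k - 1) (by omega)
  exact adj_exact hr (by omega : k = (2 ^ m - 1) * a + 2 ^ m * b + 1) hk2

/-- Lower bound within a factor tending to one. -/
lemma adj_lower_all {r m k : ℕ} (hr : r / 2 = m + 1) (hk2 : 2 * (m + 1) + 1 < k) :
    (k - 2 ^ m) * (2 ^ (m + 1) + 1) + 1 ≤ adjRamsey r k := by
  set b := (k - 1) / 2 ^ m with hb
  have hpos : 0 < 2 ^ m := by positivity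
  have h0 := Nat.div_add_mod (k - 1) (2 ^ m)
  have h1 := Nat.mod_lt (k - 1) hpos
  rw [← hb] at h0
  have h2 := adjRamsey_ge_of (r := r) _ (by omega : 2 * (m + 1) ≤ r)
      (H524PR.extremalQ m 0 b k (by omega) hk2)
  rw [H524PR.card_XQ] at h2
  refine le_trans ?_ h2
  have h5 : k - 2 ^ m ≤ (2 ^ m - 1) * 0 + 2 ^ m * b := by omega
  have h6 := Nat.mul_le_mul_right (2 ^ (m + 1) + 1) h5
  omega

/-- Rank at most one. -/
lemma adj_small {r k : ℕ} (hr : r ≤ 1) : adjRamsey r k = k := by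
  have hempty : ∀ (n : ℕ) (G : SimpleGraph (Fin n)), AdjRank r G → ∀ x y, ¬ G.Adj x y := by
    intro n G hG x y hxy
    have h1 := (adjRank_iff G).1 hG
    obtain ⟨m, f, hm, hf⟩ := H524PR.represent r (H524PR.adj2 G)
      (by
        intro x y
        rcases H524PR.zmod2 (H524PR.adj2 G y x) with h | h
        · rw [h, H524PR.adj2_eq_zero, G.adj_comm, ← H524PR.adj2_eq_zero]; exact h
        · rw [h, H524PR.adj2_eq_one, G.adj_comm, ← H524PR.adj2_eq_one]; exact h)
      (by intro x; rw [H524PR.adj2_eq_zero]; exact G.loopless.irrefl x) h1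
    obtain rfl : m = 0 := by omega
    have h2 := (H524PR.adj2_eq_one G x y).2 hxy
    rw [hf] at h2
    simp [H524PR.B_apply] at h2
  have hset : ∀ n, (∀ G : SimpleGraph (Fin n), AdjRank r G → ¬ NoMono G k) ↔ k ≤ n := by
    intro n
    constructor
    · intro h
      by_contra hcon
      push Not at hcon
      apply h ⊥
      · rw [adjRank_iff]
        have : H524PR.adj2 (⊥ : SimpleGraph (Fin n)) = 0 := by
          ext x y
          rw [H524PR.adj2_eq_zero _ _ _ |>.2 (by simp)]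
          rfl
        rw [this, Matrix.rank_zero]
        exact Nat.zero_le _
      · constructor <;>
        · intro s hs
          have h1 := hs.card_eq
          have h2 := Finset.card_le_univ s
          rw [Fintype.card_fin] at h2
          omega
    · intro hkn G hG hno
      obtain ⟨t, -, ht⟩ := Finset.exists_subset_card_eq (s := (Finset.univ : Finset (Fin n)))
        (n := k) (by rwa [Finset.card_univ, Fintype.card_fin])
      apply hno.2 t
      refine ⟨?_, ht⟩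
      intro x _ y _ hxy
      rw [SimpleGraph.compl_adj]
      exact ⟨hxy, hempty n G hG x y⟩
  have : {n : ℕ | ∀ G : SimpleGraph (Fin n), AdjRank r G → ¬ NoMono G k} = {n | k ≤ n} := by
    ext n
    exact hset n
  unfold adjRamsey
  rw [this]
  apply le_antisymm
  · exact Nat.sInf_le (show k ∈ {n | k ≤ n} from le_refl k)
  · exact le_csInf ⟨k, le_refl k⟩ (fun n hn => hn)

/-- The order of magnitude for rank at most `2 √k`. -/
lemma adj_order {m k : ℕ} (hk : 2 ≤ k) (hm : m ^ 2 ≤ k) :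
    (k : ℝ) * 2 ^ m / 64 < adjRamsey (2 * m) k ∧ (adjRamsey (2 * m) k : ℝ) ≤ 2 * (k * 2 ^ m) := by
  have hk0 : (0 : ℝ) < k := by exact_mod_cast (by omega : 0 < k)
  have hmk : m ≤ k := by nlinarith
  have hm' : (m : ℝ) ^ 2 ≤ k := by exact_mod_cast hm
  constructor
  · refine lt_of_le_of_lt ?_ (adjRamsey_gt hk hmk)
    have h1 : (m : ℝ) ^ 2 / (2 * k) ≤ 1 := by
      rw [div_le_one (by positivity)]
      linarith
    have h2 : (2 : ℝ) ^ ((m : ℝ) - 6) ≤ (2 : ℝ) ^ ((m : ℝ) - m ^ 2 / (2 * k) - 5) :=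
      Real.rpow_le_rpow_of_exponent_le (by norm_num) (by linarith)
    have h3 : (2 : ℝ) ^ ((m : ℝ) - 6) = 2 ^ m / 64 := by
      rw [Real.rpow_sub (by norm_num), Real.rpow_natCast]
      norm_num
    rw [h3] at h2
    calc (k : ℝ) * 2 ^ m / 64 = k * (2 ^ m / 64) := by ring
      _ ≤ _ := mul_le_mul_of_nonneg_left h2 hk0.le
  · have h1 := adjRamsey_le (2 * m) k
    have h2 : 2 * m / 2 = m := by omega
    rw [h2] at h1
    have h3 : (k - 1) * (2 ^ m + 1) + 1 ≤ 2 * (k * 2 ^ m) := by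
      obtain ⟨l, rfl⟩ : ∃ l, k = l + 1 := ⟨k - 1, by omega⟩
      rw [Nat.add_sub_cancel]
      have := Nat.one_le_two_pow (n := m)
      nlinarith
    exact_mod_cast h1.trans h3

/-! ### Bounds -/

section bounds

variable {F : Type} [Field F]

lemma ord_upper [Fintype F] {n r k : ℕ} (G : SimpleGraph (Fin n)) (hr : OrdRank F r G)
    (h : NoMono G k) : n ≤ 2 * (k - 1) * Fintype.card F ^ r := by
  obtain ⟨M, h1, h2⟩ := hr
  exact H524PR.OF.upper_ord G M h2 h1 h

lemma ord_set (F : Type) [Field F] [Fintype F] (r k n : ℕ)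
    (h : 2 * (k - 1) * Fintype.card F ^ r < n) :
    n ∈ {n : ℕ | ∀ G : SimpleGraph (Fin n), OrdRank F r G → ¬ NoMono G k} := by
  intro G hr hG
  exact absurd (ord_upper G hr hG) (not_le.2 h)

lemma ordRamsey_le (F : Type) [Field F] [Fintype F] (r k : ℕ) :
    ordRamsey F r k ≤ 2 * (k - 1) * Fintype.card F ^ r + 1 :=
  Nat.sInf_le (ord_set F r k _ (Nat.lt_succ_self _))

lemma ordRamsey_mem (F : Type) [Field F] [Fintype F] (r k : ℕ) :
    ∀ G : SimpleGraph (Fin (ordRamsey F r k)), OrdRank F r G → ¬ NoMono G k := by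
  have : ordRamsey F r k ∈ {n : ℕ | ∀ G : SimpleGraph (Fin n), OrdRank F r G → ¬ NoMono G k} :=
    Nat.sInf_mem ⟨_, ord_set F r k _ (Nat.lt_succ_self _)⟩
  exact this

lemma ordRank_mono {r r' n : ℕ} (h : r ≤ r') {G : SimpleGraph (Fin n)} (hG : OrdRank F r G) :
    OrdRank F r' G := by
  obtain ⟨M, h1, h2⟩ := hG
  exact ⟨M, h1.trans h, h2⟩

lemma ordRamsey_mono [Fintype F] {r r' : ℕ} (h : r ≤ r') (k : ℕ) :
    ordRamsey F r k ≤ ordRamsey F r' k :=
  Nat.sInf_le (fun G hG => ordRamsey_mem F r' k G (ordRank_mono h hG))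

/-- At least `k`. -/
lemma le_ordRamsey (F : Type) [Field F] [Fintype F] (r k : ℕ) : k ≤ ordRamsey F r k := by
  by_contra hcon
  push Not at hcon
  apply ordRamsey_mem F r k ⊥
  · exact ⟨0, by rw [Matrix.rank_zero]; exact Nat.zero_le _, fun _ _ _ _ _ _ _ => Iff.rfl⟩
  · constructor <;>
    · intro s hs
      have h1 := hs.card_eq
      have h2 := Finset.card_le_univ s
      rw [Fintype.card_fin] at h2
      omega

/-- Existence. -/
lemma exists_ord (F : Type) [Field F] [Fintype F] {n r k : ℕ} (hr : 2 ≤ r) (hk : 1 ≤ k)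
    (hn : (n : ℝ) ≤ k * (Fintype.card F : ℝ) ^
      ((r : ℝ) - 9 - 3 * (Fintype.card F : ℝ) ^ 2 * r ^ 2 / k)) :
    ∃ G : SimpleGraph (Fin n), OrdRank F r G ∧ NoMono G k := by
  obtain ⟨f, hf⟩ := H524PR.OF.exists_OF' n k hr hk hn
  obtain ⟨M, h1, h2⟩ := H524PR.OF.rank_GF f
  refine ⟨H524PR.OF.GF f, ⟨M, h1, ?_⟩, hf⟩
  intro x y x' y' hxy hxy' he
  rw [h2 x y hxy, h2 x' y' hxy', he]

lemma ordRamsey_gt (F : Type) [Field F] [Fintype F] {r k : ℕ} (hk : 1 ≤ k) :
    k * (Fintype.card F : ℝ) ^ ((r : ℝ) - 9 - 3 * (Fintype.card F : ℝ) ^ 2 * r ^ 2 / k) <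
      ordRamsey F r k := by
  have hk0 : (0 : ℝ) < k := by exact_mod_cast hk
  have hq : (1 : ℝ) < Fintype.card F := by exact_mod_cast Fintype.one_lt_card (α := F)
  rcases Nat.lt_or_ge r 2 with hr | hr
  · have h1 : (k : ℝ) ≤ ordRamsey F r k := by exact_mod_cast le_ordRamsey F r k
    refine lt_of_lt_of_le ?_ h1
    have h2 : (Fintype.card F : ℝ) ^ ((r : ℝ) - 9 - 3 * (Fintype.card F : ℝ) ^ 2 * r ^ 2 / k) < 1 := by
      apply Real.rpow_lt_one_of_one_lt_of_neg hq
      have h3 : (r : ℝ) < 2 := by exact_mod_cast hr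
      have h4 : 0 ≤ 3 * (Fintype.card F : ℝ) ^ 2 * r ^ 2 / k := by positivity
      linarith
    nlinarith
  · by_contra hcon
    push Not at hcon
    obtain ⟨G, h1, h2⟩ := exists_ord F hr hk hcon
    exact ordRamsey_mem F r k G h1 h2

lemma ordRamsey_two {r k : ℕ} (hk : 1 ≤ k) (hrk : r ≤ k) :
    (2 : ℝ) ^ ((r : ℝ) - r ^ 2 / (2 * k) - 4) < ordRamsey (ZMod 2) r k := by
  by_contra hcon
  push Not at hcon
  obtain ⟨f, hf⟩ := H524PR.exists_GO _ k hk hrk hcon
  obtain ⟨M, h1, h2⟩ := H524PR.fitsAbove_GO f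
  apply ordRamsey_mem (ZMod 2) r k (H524PR.GO f) ⟨M, h2, ?_⟩ hf
  intro x y x' y' hxy hxy' he
  rw [← h1 x y hxy, ← h1 x' y' hxy', he]

lemma order_of (F : Type) [Field F] [Fintype F] {r k : ℕ} (hk : 1 ≤ k)
    (h : 3 * Fintype.card F ^ 2 * r ^ 2 ≤ k) :
    k * (Fintype.card F : ℝ) ^ ((r : ℝ) - 10) < ordRamsey F r k ∧
      (ordRamsey F r k : ℝ) ≤ 2 * (k * (Fintype.card F : ℝ) ^ r) := by
  have hk0 : (0 : ℝ) < k := by exact_mod_cast hk
  have hq : (1 : ℝ) < Fintype.card F := by exact_mod_cast Fintype.one_lt_card (α := F)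
  constructor
  · refine lt_of_le_of_lt ?_ (ordRamsey_gt F hk)
    apply mul_le_mul_of_nonneg_left _ hk0.le
    apply Real.rpow_le_rpow_of_exponent_le hq.le
    have h1 : 3 * (Fintype.card F : ℝ) ^ 2 * r ^ 2 / k ≤ 1 := by
      rw [div_le_one hk0]
      exact_mod_cast h
    linarith
  · have h1 := ordRamsey_le F r k
    have h2 : 2 * (k - 1) * Fintype.card F ^ r + 1 ≤ 2 * (k * Fintype.card F ^ r) := by
      obtain ⟨l, rfl⟩ : ∃ l, k = l + 1 := ⟨k - 1, by omega⟩
      rw [Nat.add_sub_cancel]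
      have : 1 ≤ Fintype.card F ^ r := Nat.one_le_pow _ _ Fintype.card_pos
      nlinarith
    exact_mod_cast h1.trans h2

end bounds

/-! ### Growth rates -/

section growth

variable (F : Type) [Field F] [Fintype F]

lemma growth_upper {ε : ℝ} (hε : 0 ≤ ε) {k : ℕ} (hk : 1 ≤ k) :
    Real.log (ordRamsey F ⌊ε * k⌋₊ k) / k ≤
      ε * Real.log (Fintype.card F) + Real.log (2 * k) / k := by
  have hk0 : (0 : ℝ) < k := by exact_mod_cast hk
  have hq : (1 : ℝ) < Fintype.card F := by exact_mod_cast Fintype.one_lt_card (α := F)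
  set r := ⌊ε * k⌋₊ with hr
  have hf : (r : ℝ) ≤ ε * k := Nat.floor_le (by positivity)
  have h1 : (ordRamsey F r k : ℝ) ≤ 2 * (k * (Fintype.card F : ℝ) ^ r) := by
    have h1 := ordRamsey_le F r k
    have h2 : 2 * (k - 1) * Fintype.card F ^ r + 1 ≤ 2 * (k * Fintype.card F ^ r) := by
      obtain ⟨l, rfl⟩ : ∃ l, k = l + 1 := ⟨k - 1, by omega⟩
      rw [Nat.add_sub_cancel]
      have : 1 ≤ Fintype.card F ^ r := Nat.one_le_pow _ _ Fintype.card_pos
      nlinarith
    exact_mod_cast h1.trans h2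
  have h0 : (0 : ℝ) < ordRamsey F r k := by
    have : k ≤ ordRamsey F r k := le_ordRamsey F r k
    exact_mod_cast lt_of_lt_of_le (by omega : 0 < k) this
  have h2 := Real.log_le_log h0 h1
  have h3 : Real.log (2 * (k * (Fintype.card F : ℝ) ^ r)) =
      Real.log (2 * k) + r * Real.log (Fintype.card F) := by
    rw [← mul_assoc, Real.log_mul (by positivity) (by positivity), Real.log_pow]
  rw [h3] at h2
  have h4 := mul_le_mul_of_nonneg_right hf (Real.log_pos hq).le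
  rw [div_le_iff₀ hk0]
  have h5 : (ε * Real.log (Fintype.card F) + Real.log (2 * k) / k) * k =
      ε * k * Real.log (Fintype.card F) + Real.log (2 * k) := by
    field_simp
  rw [h5]
  linarith

lemma growth_lower {ε : ℝ} (hε : 0 ≤ ε) {k : ℕ} (hk : 1 ≤ k) :
    (ε - 3 * (Fintype.card F : ℝ) ^ 2 * ε ^ 2 - 10 / k) * Real.log (Fintype.card F) ≤
      Real.log (ordRamsey F ⌊ε * k⌋₊ k) / k := by
  have hk0 : (0 : ℝ) < k := by exact_mod_cast hk
  have hk1 : (1 : ℝ) ≤ k := by exact_mod_cast hk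
  have hq : (1 : ℝ) < Fintype.card F := by exact_mod_cast Fintype.one_lt_card (α := F)
  have hlq := Real.log_pos hq
  set r := ⌊ε * k⌋₊ with hr
  have hf : (r : ℝ) ≤ ε * k := Nat.floor_le (by positivity)
  have hf' : ε * k < r + 1 := Nat.lt_floor_add_one _
  have h1 := ordRamsey_gt F (r := r) hk
  have h2 := Real.log_le_log (by positivity) h1.le
  rw [Real.log_mul hk0.ne' (by positivity), Real.log_rpow (by linarith)] at h2
  have h3 : 0 ≤ Real.log k := Real.log_nonneg hk1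
  have h4 : 3 * (Fintype.card F : ℝ) ^ 2 * r ^ 2 / k ≤ 3 * (Fintype.card F : ℝ) ^ 2 * ε ^ 2 * k := by
    rw [div_le_iff₀ hk0]
    have h5 : (r : ℝ) ^ 2 ≤ (ε * k) ^ 2 := pow_le_pow_left₀ (by positivity) hf 2
    have h6 : (0 : ℝ) ≤ 3 * (Fintype.card F : ℝ) ^ 2 := by positivity
    nlinarith [mul_le_mul_of_nonneg_left h5 h6]
  rw [le_div_iff₀ hk0]
  have h7 : (ε - 3 * (Fintype.card F : ℝ) ^ 2 * ε ^ 2 - 10 / k) * Real.log (Fintype.card F) * k =
      (ε * k - 10 - 3 * (Fintype.card F : ℝ) ^ 2 * ε ^ 2 * k) * Real.log (Fintype.card F) := by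
    field_simp
    ring
  rw [h7]
  have h8 : ε * k - 10 - 3 * (Fintype.card F : ℝ) ^ 2 * ε ^ 2 * k ≤
      r - 9 - 3 * (Fintype.card F : ℝ) ^ 2 * r ^ 2 / k := by linarith
  have h9 := mul_le_mul_of_nonneg_right h8 hlq.le
  linarith

lemma tendsto_log_div : Tendsto (fun k : ℕ => Real.log (2 * k) / k) atTop (nhds 0) := by
  have h2 : Tendsto (fun x : ℝ => Real.log x / x) atTop (nhds 0) := by
    have := Real.isLittleO_log_id_atTop.tendsto_div_nhds_zero
    simpa using this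
  have h3 : Tendsto (fun k : ℕ => (2 : ℝ) * k) atTop atTop :=
    Tendsto.const_mul_atTop (by norm_num) tendsto_natCast_atTop_atTop
  have h4 := (h2.comp h3).const_mul 2
  rw [mul_zero] at h4
  refine h4.congr' ?_
  filter_upwards [eventually_gt_atTop 0] with k hk
  have : (k : ℝ) ≠ 0 := by positivity
  simp only [Function.comp]
  field_simp

lemma iterated {δ : ℝ} (hδ : 0 < δ) : ∃ ε₀ : ℝ, 0 < ε₀ ∧ ∀ ε : ℝ, 0 < ε → ε ≤ ε₀ →
    ∀ᶠ k : ℕ in atTop,
      |Real.log (ordRamsey F ⌊ε * k⌋₊ k) / (ε * k) - Real.log (Fintype.card F)| ≤ δ := by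
  have hq : (1 : ℝ) < Fintype.card F := by exact_mod_cast Fintype.one_lt_card (α := F)
  set L := Real.log (Fintype.card F) with hL
  have hlq : 0 < L := Real.log_pos hq
  set q : ℝ := (Fintype.card F : ℝ) with hqd
  refine ⟨δ / (6 * q ^ 2 * L), by positivity, ?_⟩
  intro ε hε hε0
  have h1 : Tendsto (fun k : ℕ => (10 : ℝ) / k) atTop (nhds 0) :=
    tendsto_const_div_atTop_nhds_zero_nat 10
  have h2 := tendsto_log_div
  have e1 := h1.eventually (ge_mem_nhds (show (0 : ℝ) < δ * ε / (2 * L) by positivity))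
  have e2 := h2.eventually (ge_mem_nhds (show (0 : ℝ) < δ * ε by positivity))
  filter_upwards [e1, e2, eventually_ge_atTop 1] with k hk1 hk2 hk
  have hk0 : (0 : ℝ) < k := by exact_mod_cast hk
  have hup := growth_upper F hε.le hk
  have hlo := growth_lower F hε.le hk
  rw [← hL] at hup hlo
  rw [← hqd] at hlo
  have h3 : Real.log (ordRamsey F ⌊ε * k⌋₊ k) / (ε * k) =
      Real.log (ordRamsey F ⌊ε * k⌋₊ k) / k / ε := by
    rw [div_div, mul_comm]
  rw [h3]
  set X := Real.log (ordRamsey F ⌊ε * k⌋₊ k) / k with hX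
  have h4 : X / ε - L = (X - ε * L) / ε := by
    field_simp
  rw [h4, abs_le]
  constructor
  · rw [le_div_iff₀ hε]
    have h5 : 3 * q ^ 2 * ε ^ 2 * L ≤ δ * ε / 2 := by
      have h6 : ε * (6 * q ^ 2 * L) ≤ δ := by
        rwa [le_div_iff₀ (by positivity)] at hε0
      nlinarith
    have h7 : 10 / (k : ℝ) * L ≤ δ * ε / 2 := by
      have := mul_le_mul_of_nonneg_right hk1 hlq.le
      refine this.trans (le_of_eq ?_)
      field_simp
    have h8 : (ε - 3 * q ^ 2 * ε ^ 2 - 10 / k) * L =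
        ε * L - 3 * q ^ 2 * ε ^ 2 * L - 10 / (k : ℝ) * L := by ring
    rw [h8] at hlo
    linarith
  · rw [div_le_iff₀ hε]
    linarith

end growth

/-! ### The threshold for small homogeneous sets -/

section thr

lemma poly_hom (F : Type) [Field F] [Fintype F] (δ : ℝ) (n r : ℕ) (hn : 1 ≤ n)
    (G : SimpleGraph (Fin n)) (hG : OrdRank F r G)
    (hr : (r : ℝ) * Real.log (Fintype.card F) ≤ (1 - δ) * Real.log n) :
    ∃ s : Finset (Fin n), (G.IsClique s ∨ Gᶜ.IsClique s) ∧ (n : ℝ) ^ δ / 2 ≤ s.card := by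
  have hn0 : (0 : ℝ) < n := by exact_mod_cast hn
  have hq0 : (0 : ℝ) < Fintype.card F := by exact_mod_cast Fintype.card_pos (α := F)
  by_contra hcon
  push Not at hcon
  set x : ℝ := (n : ℝ) ^ δ / 2 with hx
  have hx0 : 0 < x := by positivity
  have hno : NoMono G ⌈x⌉₊ := by
    constructor
    · intro s hs
      have h1 := hcon s (Or.inl hs.isClique)
      rw [hs.card_eq] at h1
      exact absurd (Nat.le_ceil x) (not_le.2 h1)
    · intro s hs
      have h1 := hcon s (Or.inr hs.isClique)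
      rw [hs.card_eq] at h1
      exact absurd (Nat.le_ceil x) (not_le.2 h1)
  have h1 := ord_upper G hG hno
  have h2 : ((⌈x⌉₊ - 1 : ℕ) : ℝ) < x := by
    have h3 : 0 < ⌈x⌉₊ := Nat.ceil_pos.2 hx0
    rw [Nat.cast_sub (by omega)]
    have := Nat.ceil_lt_add_one hx0.le
    push_cast
    linarith
  have h3 : (Fintype.card F : ℝ) ^ r ≤ (n : ℝ) ^ (1 - δ) := by
    rw [← Real.rpow_natCast, Real.rpow_def_of_pos hq0, Real.rpow_def_of_pos hn0]
    apply Real.exp_le_exp.2
    linarith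
  have h4 : (n : ℝ) ≤ 2 * ((⌈x⌉₊ - 1 : ℕ) : ℝ) * (Fintype.card F : ℝ) ^ r := by exact_mod_cast h1
  have h5 : (n : ℝ) < n := by
    calc (n : ℝ) ≤ 2 * ((⌈x⌉₊ - 1 : ℕ) : ℝ) * (Fintype.card F : ℝ) ^ r := h4
      _ < 2 * x * (Fintype.card F : ℝ) ^ r := by
        apply mul_lt_mul_of_pos_right _ (by positivity)
        linarith
      _ ≤ 2 * x * (n : ℝ) ^ (1 - δ) := by
        apply mul_le_mul_of_nonneg_left h3 (by positivity)
      _ = (n : ℝ) ^ δ * (n : ℝ) ^ (1 - δ) := by rw [hx]; ring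
      _ = n := by
        rw [← Real.rpow_add hn0]
        norm_num
  exact lt_irrefl _ h5

lemma log_hom (F : Type) [Field F] [Fintype F] (δ : ℝ) (hδ : 0 < δ) :
    ∃ C : ℝ, 0 < C ∧ ∀ᶠ n : ℕ in atTop, ∃ G : SimpleGraph (Fin n),
      OrdRank F ⌊(1 + δ) * (Real.log n / Real.log (Fintype.card F))⌋₊ G ∧
      ∀ s : Finset (Fin n), (G.IsClique s ∨ Gᶜ.IsClique s) → (s.card : ℝ) ≤ C * Real.log n := by
  have hq : (1 : ℝ) < Fintype.card F := by exact_mod_cast Fintype.one_lt_card (α := F)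
  set L := Real.log (Fintype.card F) with hL
  have hlq : 0 < L := Real.log_pos hq
  set q : ℝ := (Fintype.card F : ℝ) with hqd
  set A : ℝ := 6 * q ^ 2 * (1 + δ) ^ 2 / (δ * L) with hA
  have hA0 : 0 < A := by positivity
  refine ⟨2 * A, by positivity, ?_⟩
  have hlog : Tendsto (fun n : ℕ => Real.log n) atTop atTop :=
    Real.tendsto_log_atTop.comp tendsto_natCast_atTop_atTop
  filter_upwards [hlog.eventually_ge_atTop (max (20 * L / δ) (max (3 * L) (1 / A))),
    eventually_ge_atTop 2] with n hn hn2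
  have hn0 : (0 : ℝ) < n := by exact_mod_cast (by omega : 0 < n)
  set ℓ := Real.log n with hℓ
  have c1 : 20 * L / δ ≤ ℓ := (le_max_left _ _).trans hn
  have c2 : 3 * L ≤ ℓ := ((le_max_left _ _).trans (le_max_right _ _)).trans hn
  have c3 : 1 / A ≤ ℓ := ((le_max_right _ _).trans (le_max_right _ _)).trans hn
  have hℓ0 : 0 < ℓ := by linarith
  set r := ⌊(1 + δ) * (ℓ / L)⌋₊ with hr
  set k := ⌈A * ℓ⌉₊ with hk
  have hf : (r : ℝ) ≤ (1 + δ) * (ℓ / L) := Nat.floor_le (by positivity)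
  have hf' : (1 + δ) * (ℓ / L) < r + 1 := Nat.lt_floor_add_one _
  have hkge : A * ℓ ≤ k := Nat.le_ceil _
  have hklt : (k : ℝ) < A * ℓ + 1 := Nat.ceil_lt_add_one (by positivity)
  have hk1 : 1 ≤ k := by
    have : 0 < k := Nat.ceil_pos.2 (by positivity)
    omega
  have hk0 : (0 : ℝ) < k := by exact_mod_cast hk1
  have hr2 : 2 ≤ r := by
    have h1 : (3 : ℝ) ≤ ℓ / L := by rwa [le_div_iff₀ hlq]
    have h2 : (2 : ℝ) < r := by nlinarith
    have h3 : 2 < r := by exact_mod_cast h2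
    omega
  have hAl : A * ℓ * (δ * L) = 6 * q ^ 2 * (1 + δ) ^ 2 * ℓ := by
    rw [hA]; field_simp
  have hsmall : 3 * q ^ 2 * r ^ 2 / k ≤ δ / 2 * (ℓ / L) := by
    rw [div_le_iff₀ hk0]
    have h1 : (r : ℝ) ^ 2 ≤ ((1 + δ) * (ℓ / L)) ^ 2 := pow_le_pow_left₀ (by positivity) hf 2
    have h2 : δ / 2 * (ℓ / L) * (A * ℓ) = 3 * q ^ 2 * ((1 + δ) * (ℓ / L)) ^ 2 := by
      rw [hA]; field_simp; ring
    calc 3 * q ^ 2 * (r : ℝ) ^ 2 ≤ 3 * q ^ 2 * ((1 + δ) * (ℓ / L)) ^ 2 :=
          mul_le_mul_of_nonneg_left h1 (by positivity)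
      _ = δ / 2 * (ℓ / L) * (A * ℓ) := h2.symm
      _ ≤ δ / 2 * (ℓ / L) * k := mul_le_mul_of_nonneg_left hkge (by positivity)
  have hexp : ℓ / L ≤ (r : ℝ) - 9 - 3 * q ^ 2 * r ^ 2 / k := by
    have h1 : 20 ≤ δ * (ℓ / L) := by
      rw [div_le_iff₀ hδ] at c1
      have : δ * (ℓ / L) = ℓ * δ / L := by ring
      rw [this, le_div_iff₀ hlq]
      exact c1
    linarith
  have hnle : (n : ℝ) ≤ k * q ^ ((r : ℝ) - 9 - 3 * q ^ 2 * r ^ 2 / k) := by
    have h1 : (n : ℝ) = q ^ (ℓ / L) := by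
      rw [Real.rpow_def_of_pos (by linarith), ← hL, mul_div_cancel₀ _ hlq.ne', hℓ,
        Real.exp_log hn0]
    have h2 : q ^ (ℓ / L) ≤ q ^ ((r : ℝ) - 9 - 3 * q ^ 2 * r ^ 2 / k) :=
      Real.rpow_le_rpow_of_exponent_le hq.le hexp
    have h3 : (1 : ℝ) ≤ k := by exact_mod_cast hk1
    have h4 : 0 < q ^ ((r : ℝ) - 9 - 3 * q ^ 2 * r ^ 2 / k) := by positivity
    rw [h1]
    nlinarith
  obtain ⟨G, hG1, hG2⟩ := exists_ord F hr2 hk1 hnle
  refine ⟨G, hG1, ?_⟩
  intro s hs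
  have hsk : s.card < k := by
    by_contra hcon
    push Not at hcon
    obtain ⟨t, ht, htk⟩ := Finset.exists_subset_card_eq hcon
    rcases hs with hs | hs
    · exact hG2.1 t ⟨hs.subset (by exact_mod_cast ht), htk⟩
    · exact hG2.2 t ⟨hs.subset (by exact_mod_cast ht), htk⟩
  have h1 : (s.card : ℝ) + 1 ≤ k := by exact_mod_cast hsk
  have h2 : 1 ≤ A * ℓ := by
    rw [div_le_iff₀ hA0] at c3
    linarith
  linarith

end thr

/-! ### Relation to the diagonal Ramsey numbers -/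

section ram

theorem arrows_iff (n k : ℕ) : (∀ G : SimpleGraph (Fin n), ¬ NoMono G k) ↔
    Pool.Agent.H818R2.Ram.Arrows n k k := by
  unfold Pool.Agent.H818R2.Ram.Arrows NoMono SimpleGraph.CliqueFree
  apply forall_congr'
  intro G
  constructor
  · intro h
    by_contra hcon
    push Not at hcon
    exact h hcon
  · rintro (⟨s, hs⟩ | ⟨s, hs⟩) ⟨h1, h2⟩
    · exact h1 s hs
    · exact h2 s hs

theorem ramsey_spec (k : ℕ) : ∀ G : SimpleGraph (Fin (ramsey k)), ¬ NoMono G k := by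
  have hne : {n : ℕ | ∀ G : SimpleGraph (Fin n), ¬ NoMono G k}.Nonempty := by
    obtain ⟨n, hn⟩ := Pool.Agent.H818R2.Ram.arrows_exists k k
    exact ⟨n, (arrows_iff n k).2 hn⟩
  exact Nat.sInf_mem hne

lemma ordRamsey_le_ramsey (F : Type) [Field F] (r k : ℕ) : ordRamsey F r k ≤ ramsey k :=
  Nat.sInf_le (fun G _ => ramsey_spec k G)

lemma ordRamsey_eq (F : Type) [Field F] [Fintype F] (r k : ℕ) (h : ramsey k ≤ r + 1) :
    ordRamsey F r k = ramsey k := by
  classical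
  apply le_antisymm (ordRamsey_le_ramsey F r k)
  by_contra hcon
  push Not at hcon
  set n := ordRamsey F r k with hn
  have h1 : n ∉ {n : ℕ | ∀ G : SimpleGraph (Fin n), ¬ NoMono G k} := Nat.notMem_of_lt_sInf hcon
  simp only [Set.mem_ofPred_eq, not_forall, not_not] at h1
  obtain ⟨G, hG⟩ := h1
  refine ordRamsey_mem F r k G ?_ hG
  refine ⟨Matrix.of fun x y => if G.Adj x y then 1 else 0, ?_, ?_⟩
  · refine le_trans (Matrix.rank_le_card_width _) ?_
    rw [Fintype.card_fin]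
    omega
  · intro x y x' y' _ _ hm
    simp only [Matrix.of_apply] at hm
    by_cases h1 : G.Adj x y <;> by_cases h2 : G.Adj x' y' <;> simp_all

end ram

/-! ### Comparison of the two classes -/

lemma ordRank_of_adjRank {r n : ℕ} {G : SimpleGraph (Fin n)} (h : AdjRank r G) :
    OrdRank (ZMod 2) r G := by
  refine ⟨H524PR.adj2 G, (adjRank_iff G).1 h, ?_⟩
  intro x y x' y' _ _ he
  rw [← H524PR.adj2_eq_one, ← H524PR.adj2_eq_one, he]

lemma adj_le_ord (r k : ℕ) : adjRamsey r k ≤ ordRamsey (ZMod 2) r k :=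
  Nat.sInf_le (fun G hG => ordRamsey_mem (ZMod 2) r k G (ordRank_of_adjRank hG))

/-- **Main result.**  `F` is a finite field with `q = Fintype.card F` elements. -/
theorem result :
    -- (1) adjacency rank over the field with two elements: the upper bound
    (∀ r k : ℕ, adjRamsey r k ≤ (k - 1) * (2 ^ (r / 2) + 1) + 1) ∧
    -- it is attained if `k` is large in terms of `r`, with `m + 1 = ⌊r / 2⌋`
    (∀ r m k : ℕ, r / 2 = m + 1 → (2 ^ m - 1) * (2 ^ m - 2) < k → 2 * (m + 1) + 1 < k →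
      adjRamsey r k = (k - 1) * (2 ^ (m + 1) + 1) + 1) ∧
    -- more generally if `k - 1` is a sum of copies of `2 ^ m - 1` and `2 ^ m`
    (∀ r m k a b : ℕ, r / 2 = m + 1 → k = (2 ^ m - 1) * a + 2 ^ m * b + 1 → 2 * (m + 1) + 1 < k →
      adjRamsey r k = (k - 1) * (2 ^ (m + 1) + 1) + 1) ∧
    (∀ r k : ℕ, r ≤ 1 → adjRamsey r k = k) ∧
    -- (2) in general it is sharp up to an additive constant depending on `r` only
    (∀ r m k : ℕ, r / 2 = m + 1 → 2 * (m + 1) + 1 < k →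
      (k - 2 ^ m) * (2 ^ (m + 1) + 1) + 1 ≤ adjRamsey r k) ∧
    -- (3) and, for rank at most `2 √k`, up to a constant factor
    (∀ m k : ℕ, 2 ≤ k → m ^ 2 ≤ k →
      (k : ℝ) * 2 ^ m / 64 < adjRamsey (2 * m) k ∧
      (adjRamsey (2 * m) k : ℝ) ≤ 2 * (k * 2 ^ m)) ∧
    (∀ m k : ℕ, 2 ≤ k → m ≤ k →
      k * (2 : ℝ) ^ ((m : ℝ) - m ^ 2 / (2 * k) - 5) < adjRamsey (2 * m) k) ∧
    -- (4) ordered rank over a finite field: upper bound
    (∀ (F : Type) [Field F] [Fintype F] (n r k : ℕ) (G : SimpleGraph (Fin n)), OrdRank F r G →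
      NoMono G k → n ≤ 2 * (k - 1) * Fintype.card F ^ r) ∧
    -- and lower bounds
    (∀ (F : Type) [Field F] [Fintype F] (r k : ℕ), 1 ≤ k →
      k * (Fintype.card F : ℝ) ^ ((r : ℝ) - 9 - 3 * (Fintype.card F : ℝ) ^ 2 * r ^ 2 / k) <
        ordRamsey F r k) ∧
    (∀ r k : ℕ, 1 ≤ k → r ≤ k →
      (2 : ℝ) ^ ((r : ℝ) - r ^ 2 / (2 * k) - 4) < ordRamsey (ZMod 2) r k) ∧
    -- (5) the growth rate for ordered rank at most `ε k`
    (∀ (F : Type) [Field F] [Fintype F] (ε : ℝ), 0 ≤ ε → ∀ k : ℕ, 1 ≤ k →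
      (ε - 3 * (Fintype.card F : ℝ) ^ 2 * ε ^ 2 - 10 / k) * Real.log (Fintype.card F) ≤
        Real.log (ordRamsey F ⌊ε * k⌋₊ k) / k ∧
      Real.log (ordRamsey F ⌊ε * k⌋₊ k) / k ≤
        ε * Real.log (Fintype.card F) + Real.log (2 * k) / k) ∧
    (∀ (F : Type) [Field F] [Fintype F] (δ : ℝ), 0 < δ → ∃ ε₀ : ℝ, 0 < ε₀ ∧ ∀ ε : ℝ, 0 < ε →
      ε ≤ ε₀ → ∀ᶠ k : ℕ in atTop,
        |Real.log (ordRamsey F ⌊ε * k⌋₊ k) / (ε * k) - Real.log (Fintype.card F)| ≤ δ) ∧
    -- (6) a sharp threshold for homogeneous sets of polynomial size at ordered rank `log_q n`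
    (∀ (F : Type) [Field F] [Fintype F] (δ : ℝ) (n r : ℕ), 1 ≤ n → ∀ G : SimpleGraph (Fin n),
      OrdRank F r G → (r : ℝ) * Real.log (Fintype.card F) ≤ (1 - δ) * Real.log n →
      ∃ s : Finset (Fin n), (G.IsClique s ∨ Gᶜ.IsClique s) ∧ (n : ℝ) ^ δ / 2 ≤ s.card) ∧
    (∀ (F : Type) [Field F] [Fintype F] (δ : ℝ), 0 < δ → ∃ C : ℝ, 0 < C ∧ ∀ᶠ n : ℕ in atTop,
      ∃ G : SimpleGraph (Fin n),
        OrdRank F ⌊(1 + δ) * (Real.log n / Real.log (Fintype.card F))⌋₊ G ∧
        ∀ s : Finset (Fin n), (G.IsClique s ∨ Gᶜ.IsClique s) → (s.card : ℝ) ≤ C * Real.log n) ∧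
    -- (7) relation to each other and to `R(k,k)`
    (∀ r k : ℕ, adjRamsey r k ≤ ordRamsey (ZMod 2) r k) ∧
    (∀ (F : Type) [Field F] [Fintype F] (r k : ℕ), ordRamsey F r k ≤ ramsey k ∧
      (ramsey k ≤ r + 1 → ordRamsey F r k = ramsey k)) :=
  ⟨adjRamsey_le, fun _ _ _ => adj_exact_large, fun _ _ _ _ _ => adj_exact,
    fun _ _ => adj_small, fun _ _ _ => adj_lower_all, fun _ _ => adj_order,
    fun _ _ => adjRamsey_gt,
    fun _ _ _ _ _ _ G h1 h2 => ord_upper G h1 h2, fun F _ _ _ _ hk => ordRamsey_gt F hk,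
    fun _ _ h1 h2 => ordRamsey_two h1 h2,
    fun F _ _ _ h1 _ hk => ⟨growth_lower F h1 hk, growth_upper F h1 hk⟩,
    fun F _ _ _ hδ => iterated F hδ, poly_hom, log_hom, adj_le_ord,
    fun F _ _ r k => ⟨ordRamsey_le_ramsey F r k, ordRamsey_eq F r k⟩⟩

end Pool.Agent.Results.MP_28724c_co.LowRankColourings
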