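import Pool.Agent.H782.Sym.Growth
import Pool.Agent.H782.Sym.Hyper
import Pool.Agent.H782.Sym.Groups

/-!
# Ramsey colourings with symmetric symmetry groups

Colourings of the pairs of the points of a set whose colour classes are permuted by a large symmetric
group have large monochromatic sets.

1. and 2. Two colours, 0-1 words of length `m` (so `2 ^ m` vertices), coordinates permuted inside `b`
blocks: the largest `m` without a monochromatic set of `k` words is
`min (b, log₂ R(k,k)) k ^ o(1)`, uniformly in `b`; for `b = ⌈k ^ β⌉` its exponent tends to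
`min (β, 1)`.
3. The same upper bound for any number of colours and any alphabet.
4. Actions of the symmetric group on `N` points on any set of vertices.
5. Labelled `r`-uniform hypergraphs on `N` vertices up to isomorphism.
6. Groups containing the symmetric group on `N` points, with left and right multiplications.
-/

set_option autoImplicit false

open Filter Topology Pool.Agent.H782.Sym

namespace Pool.Agent.Results.MP_28724c_co.SymmetricColourings

theorem result :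
    (∀ β : ℝ, 0 ≤ β →
      Tendsto (fun k : ℕ => Real.log (maxLen ⌈(k : ℝ) ^ β⌉₊ k) / Real.log k) atTop
        (𝓝 (min β 1))) ∧
    (∀ ε : ℝ, 0 < ε → ∃ K : ℕ, ∀ k : ℕ, K ≤ k → ∀ b m : ℕ, 1 ≤ b →
      ((m ≤ b ∧ 2 ^ m < Pool.Agent.H818R2.Ram.R k k → Good b m k) ∧
        (Good b m k → 2 ^ m < Pool.Agent.H818R2.Ram.R k k ∧ (m : ℝ) ≤ b * (k : ℝ) ^ ε))) ∧
    (∀ (t : ℕ) (ε : ℝ), 0 < ε → ∃ K : ℕ, ∀ k : ℕ, K ≤ k → ∀ m b : ℕ, 1 ≤ b →
      ∀ (β : Fin m → Fin b) (Q : Type) [Nontrivial Q] (c : (Fin m → Q) → (Fin m → Q) → Fin t),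
      BlockInvariant β c → (b : ℝ) * (k : ℝ) ^ ε ≤ m → HasMono c k) ∧
    (∀ t C : ℕ, ∃ w : ℕ, ∀ N W : ℕ, w ≤ W → W + w ≤ N → ∀ (X : Type)
      [MulAction (Equiv.Perm (Fin N)) X] (c : X → X → Fin t),
      (∀ σ : Equiv.Perm (Fin N), ∃ π : Equiv.Perm (Fin t), ∀ x y : X, x ≠ y →
        c (σ • x) (σ • y) = π (c x y)) →
      ∀ (x : X) (A : Finset (Fin N)), A.card = W →
      (∀ σ : Equiv.Perm (Fin N), σ • x = x ↔ A.map σ.toEmbedding = A) → HasMono c (N ^ C)) ∧
    (∀ t r : ℕ, 1 ≤ r → ∀ ε : ℝ, 0 < ε → ∃ K : ℕ, ∀ k : ℕ, K ≤ k →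
      ∀ (N : ℕ) (c : Finset (Finset (Fin N)) → Finset (Finset (Fin N)) → Fin t),
      (∀ σ : Equiv.Perm (Fin N), ∃ π : Equiv.Perm (Fin t), ∀ G H : Finset (Finset (Fin N)),
        (∀ e ∈ G, e.card = r) → (∀ e ∈ H, e.card = r) → G ≠ H →
          c (relabel σ G) (relabel σ H) = π (c G H)) →
      (k : ℝ) ^ ε ≤ N.choose r →
      ∃ S : Finset (Finset (Finset (Fin N))), k ≤ S.card ∧ (∀ G ∈ S, ∀ e ∈ G, e.card = r) ∧
        ∃ col, ∀ G ∈ S, ∀ H ∈ S, G ≠ H → c G H = col) ∧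
    (∀ t C : ℕ, ∃ N₀ : ℕ, ∀ N : ℕ, N₀ ≤ N → ∀ (G : Type) [Group G]
      (φ : Equiv.Perm (Fin N) →* G), Function.Injective φ → ∀ c : G → G → Fin t,
      (∀ g, ∃ π : Equiv.Perm (Fin t), ∀ x y, x ≠ y → c (g * x) (g * y) = π (c x y)) →
      (∀ g, ∃ π : Equiv.Perm (Fin t), ∀ x y, x ≠ y → c (x * g) (y * g) = π (c x y)) →
      HasMono c (N ^ C)) := by
  refine ⟨growth, two_sided, words, action_nat, fun t r hr ε hε => hypergraphs t r hr ε hε,
    groups⟩

end Pool.Agent.Results.MP_28724c_co.SymmetricColourings
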